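import Pool.Agent.Helper55.UG.Gal
import Pool.Agent.Helper71.OW.TateF

/-!
Project UG (MP_b8862a_ag): the Tate tensors if the Lie algebra of the Galois group contains all skew matrices.
-/

set_option linter.unusedSectionVars false

open Matrix

namespace MH

variable {n : Type*} [Fintype n] [DecidableEq n]

/-- The connected group of the similitudes `g` of `Q`: `g^T Q g = z ^ 2 Q` with `z = 1` if the weight `w` is zero, and
`det g = z ^ n` if `w` is even. -/
def IsGQ (w : ℤ) (Q : Matrix n n ℚ) (g : GL n ℂ) : Prop :=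
  ∃ z : ℂ, (w = 0 → z = 1) ∧ (g : Matrix n n ℂ)ᵀ * toC Q * (g : Matrix n n ℂ) = z ^ 2 • toC Q ∧
    (Even w → (g : Matrix n n ℂ).det = z ^ Fintype.card n)

variable {w m : ℤ} {Q : Matrix n n ℚ} {S : Finset ℤ} {P R : ℤ → Matrix n n ℂ} {Γ : Subgroup (GL n ℂ)}

private theorem h_mem_o55 (G : IsGalO Q S P Γ R) : ∑ p ∈ S, (p : ℂ) • R p ∈ LG Γ := by
  intro a b t ht
  have h1 : Idm S R := ⟨G.mul, G.sum⟩
  exact (h1.inv_iff a b t).1 (G.ht a b t ht)

private theorem trace_X_o55 (H : IsHW w Q S P) (G : IsGalO Q S P Γ R) :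
    2 * (∑ p ∈ S, (p : ℂ) • R p).trace = (w : ℂ) * Fintype.card n := by
  have hPP : ∀ p, P p * P p = P p := fun p => by rw [H.mul, if_pos rfl]
  have hRR : ∀ p, R p * R p = R p := fun p => by rw [G.mul, if_pos rfl]
  have e1 : ∀ p, (R p).trace = (P p).trace := by
    intro p
    rw [trace_eq_rank (hRR p), trace_eq_rank (hPP p), G.rank]
  have e2 : (∑ p ∈ S, (p : ℂ) • R p).trace = (∑ p ∈ S, (p : ℂ) • P p).trace := by
    rw [Matrix.trace_sum, Matrix.trace_sum]
    refine Finset.sum_congr rfl fun p _ => ?_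
    rw [Matrix.trace_smul, Matrix.trace_smul, e1]
  rw [e2]
  have e3 := congrArg Matrix.trace (H.reflect (fun p => (p : ℂ)))
  have e4 : (∑ p ∈ S, (p : ℂ) • P (w - p)).trace = (∑ p ∈ S, (p : ℂ) • P p).trace := by
    rw [Matrix.trace_sum, Matrix.trace_sum]
    refine Finset.sum_congr rfl fun p _ => ?_
    rw [Matrix.trace_smul, Matrix.trace_smul]
    congr 1
    rw [← H.conj p, trace_eq_rank (hPP p)]
    have : ((P p).map (starRingEnd ℂ)).trace = starRingEnd ℂ ((P p).trace) := by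
      simp [Matrix.trace, map_sum]
    rw [this, trace_eq_rank (hPP p), map_natCast]
  rw [e4] at e3
  have e5 : (∑ p ∈ S, ((w - p : ℤ) : ℂ) • P p).trace =
      (w : ℂ) * Fintype.card n - (∑ p ∈ S, (p : ℂ) • P p).trace := by
    have e6 : ∑ p ∈ S, ((w - p : ℤ) : ℂ) • P p = (w : ℂ) • (1 : Matrix n n ℂ) - ∑ p ∈ S, (p : ℂ) • P p := by
      rw [← H.sum, Finset.smul_sum, ← Finset.sum_sub_distrib]
      refine Finset.sum_congr rfl fun p _ => ?_
      rw [← sub_smul]
      push_cast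
      rfl
    rw [e6, Matrix.trace_sub, Matrix.trace_smul, Matrix.trace_one, smul_eq_mul]
  rw [e5] at e3
  linear_combination e3

/-- If all skew matrices are in the tensor Lie algebra of `Γ`, the tensors of `Γ` are the tensors fixed by the group of
similitudes, even weight. -/
theorem tate_GQ_even55 (H : IsHS m Q S P) (G : IsGal m Q S P Γ R) [Nonempty n]
    (hfull : ∀ X : Matrix n n ℂ, Xᵀ * toC Q + toC Q * X = 0 → X ∈ LG Γ)
    (a b : ℕ) (t : (Fin a ⊕ Fin b → n) → ℂ) :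
    IsTateTensor Γ a b t ↔ ∀ g : GL n ℂ, IsGQ (2 * m) Q g →
      actF (slot a b (g : Matrix n n ℂ) ((g⁻¹ : GL n ℂ) : Matrix n n ℂ)) t = t := by
  classical
  have hn0 : ((Fintype.card n : ℕ) : ℂ) ≠ 0 := by
    exact_mod_cast Fintype.card_ne_zero
  obtain ⟨B, Bi, Qi, _, _, hQ1, hQ2, _⟩ := H.exists_basis
  have hQd : (toC Q).det ≠ 0 := by
    intro h
    have := congrArg Matrix.det hQ1
    rw [Matrix.det_mul, h, zero_mul, Matrix.det_one] at this
    exact zero_ne_one this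
  -- scalars
  have hh0 : ∑ p ∈ S, ((p - m : ℤ) : ℂ) • R p = (∑ p ∈ S, (p : ℂ) • R p) - (m : ℂ) • (1 : Matrix n n ℂ) := by
    rw [← G.sum, Finset.smul_sum, ← Finset.sum_sub_distrib]
    refine Finset.sum_congr rfl fun p _ => ?_
    rw [← sub_smul]
    push_cast
    rfl
  have htr := trace_h0 H G
  have h1G : m ≠ 0 → (1 : Matrix n n ℂ) ∈ LG Γ := by
    intro hm
    obtain ⟨c, _, hc⟩ := G.LG_sim H G.h_mem
    set X := ∑ p ∈ S, (p : ℂ) • R p with hX
    have hXtr : X.trace = (m : ℂ) * Fintype.card n := by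
      rw [hh0, Matrix.trace_sub, Matrix.trace_smul, Matrix.trace_one, smul_eq_mul] at htr
      linear_combination htr
    have h1 : (Xᵀ + toC Q * X * Qi).trace = c * Fintype.card n := by
      have h2 : Xᵀ + toC Q * X * Qi = c • (1 : Matrix n n ℂ) := by
        have h3 := congrArg (fun Y => Y * Qi) hc
        simp only [add_mul, smul_mul_assoc, hQ1] at h3
        rw [mul_assoc Xᵀ, hQ1, mul_one] at h3
        exact h3
      rw [h2, Matrix.trace_smul, Matrix.trace_one, smul_eq_mul]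
    rw [Matrix.trace_add, Matrix.trace_transpose, Matrix.trace_mul_comm, ← mul_assoc, hQ2, one_mul, hXtr] at h1
    have h2 : c = 2 * m := by
      have h3 : (c - 2 * m) * (Fintype.card n : ℂ) = 0 := by linear_combination -h1
      rcases mul_eq_zero.1 h3 with h | h
      · linear_combination h
      · exact absurd h hn0
    have h3 : X - (m : ℂ) • (1 : Matrix n n ℂ) ∈ LG Γ := by
      apply hfull
      rw [Matrix.transpose_sub, Matrix.transpose_smul, Matrix.transpose_one, sub_mul, mul_sub, smul_mul_assoc,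
        one_mul, mul_smul_comm, mul_one]
      have e1 : Xᵀ * toC Q - (m : ℂ) • toC Q + (toC Q * X - (m : ℂ) • toC Q) =
          (Xᵀ * toC Q + toC Q * X) - (2 * (m : ℂ)) • toC Q := by
        rw [two_mul, add_smul]
        abel
      rw [e1, hc, h2, sub_self]
    have h4 := (LG Γ).sub_mem G.h_mem h3
    rw [← hX, sub_sub_cancel] at h4
    have h5 := (LG Γ).smul_mem ((m : ℂ))⁻¹ h4
    rwa [smul_smul, inv_mul_cancel₀ (by exact_mod_cast hm), one_smul] at h5
  constructor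
  · intro ht g hg
    have hk : ∀ X : Matrix n n ℂ, Xᵀ * toC Q + toC Q * X = 0 → dL a b t X = 0 := fun X hX => hfull X hX a b t ht
    obtain ⟨z, hz0', hz1, hz2'⟩ := hg
    have hz0 : m = 0 → z = 1 := fun h0 => hz0' (by rw [h0, mul_zero])
    have hz2 := hz2' (even_two_mul m)
    by_cases hm : m = 0
    · rw [hz0 hm, one_pow, one_smul] at hz1
      rw [hz0 hm, one_pow] at hz2
      exact so_fix (toC Q) H.Q_symm hQd hk hz1 hz2
    · have hz : z ≠ 0 := by
        rintro rfl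
        have h1 : (g : Matrix n n ℂ) * ((g⁻¹ : GL n ℂ) : Matrix n n ℂ) = 1 := by
          rw [← Units.val_mul, mul_inv_cancel, Units.val_one]
        have h2 := congrArg Matrix.det h1
        rw [Matrix.det_mul, hz2, zero_pow Fintype.card_ne_zero, zero_mul, Matrix.det_one] at h2
        exact zero_ne_one h2
      have hsc : ∀ w : ℂ, w ≠ 0 → ∀ f : GL n ℂ, ∃ f' : GL n ℂ, (f' : Matrix n n ℂ) = w • (f : Matrix n n ℂ) := by
        intro w hw f
        refine ⟨⟨w • (f : Matrix n n ℂ), w⁻¹ • ((f⁻¹ : GL n ℂ) : Matrix n n ℂ), ?_, ?_⟩, rfl⟩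
        · rw [smul_mul_smul_comm, mul_inv_cancel₀ hw, one_smul, ← Units.val_mul, mul_inv_cancel, Units.val_one]
        · rw [smul_mul_smul_comm, inv_mul_cancel₀ hw, one_smul, ← Units.val_mul, inv_mul_cancel, Units.val_one]
      obtain ⟨g₀, hg₀⟩ := hsc z⁻¹ (inv_ne_zero hz) g
      obtain ⟨z₁, hz₁⟩ := hsc z hz 1
      have h1 : (g₀ : Matrix n n ℂ)ᵀ * toC Q * (g₀ : Matrix n n ℂ) = toC Q := by
        rw [hg₀, Matrix.transpose_smul, smul_mul_assoc, smul_mul_assoc, mul_smul_comm, smul_smul, hz1, smul_smul]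
        have : z⁻¹ * z⁻¹ * z ^ 2 = 1 := by field_simp
        rw [this, one_smul]
      have h2 : (g₀ : Matrix n n ℂ).det = 1 := by
        rw [hg₀, Matrix.det_smul, hz2, ← mul_pow, inv_mul_cancel₀ hz, one_pow]
      have h3 := so_fix (toC Q) H.Q_symm hQd hk h1 h2
      have h4 := scal_fix (a := a) (b := b) (t := t) (h1G hm a b t ht) (g := z₁) (z := z)
        (by rw [hz₁, Units.val_one])
      have h5 : g = z₁ * g₀ := by
        apply Units.ext
        rw [Units.val_mul, hz₁, hg₀, Units.val_one, smul_mul_smul_comm, mul_inv_cancel₀ hz, one_smul, one_mul]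
      have e1 : slot a b ((z₁ * g₀ : GL n ℂ) : Matrix n n ℂ) (((z₁ * g₀)⁻¹ : GL n ℂ) : Matrix n n ℂ) =
          fun k => slot a b (z₁ : Matrix n n ℂ) ((z₁⁻¹ : GL n ℂ) : Matrix n n ℂ) k *
            slot a b (g₀ : Matrix n n ℂ) ((g₀⁻¹ : GL n ℂ) : Matrix n n ℂ) k := by
        funext k
        rcases k with k | k
        · rfl
        · simp only [slot, Sum.elim_inr, _root_.mul_inv_rev, Units.val_mul, Matrix.transpose_mul]
      rw [h5, e1, ← actF_mul, h3, h4]
  · intro ht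
    obtain ⟨Γ', h1, h2, h3⟩ := exists_idx H G
    refine ⟨Γ', h1, h2, fun g hg => ?_⟩
    obtain ⟨z, a1, a2, a3⟩ := h3 g hg
    exact ht g ⟨z, fun h0 => a1 (by omega), a2, fun _ => a3⟩

/-- the same in odd weight -/
theorem tate_GQ_odd55 (H : IsHW w Q S P) (hw : Odd w) (G : IsGalO Q S P Γ R) [Nonempty n]
    (hfull : ∀ X : Matrix n n ℂ, Xᵀ * toC Q + toC Q * X = 0 → X ∈ LG Γ)
    (a b : ℕ) (t : (Fin a ⊕ Fin b → n) → ℂ) :
    IsTateTensor Γ a b t ↔
      ∀ g : GL n ℂ, IsGQ w Q g → actF (slot a b (g : Matrix n n ℂ) ((g⁻¹ : GL n ℂ) : Matrix n n ℂ)) t = t := by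
  classical
  have hn0 : ((Fintype.card n : ℕ) : ℂ) ≠ 0 := by
    exact_mod_cast Fintype.card_ne_zero
  have hw0 : (w : ℂ) ≠ 0 := by
    have : w ≠ 0 := by
      rintro rfl
      exact absurd hw (by decide)
    exact_mod_cast this
  obtain ⟨B, Bi, Qi, _, _, hQ1, hQ2, _⟩ := H.exists_basis
  have hQd : (toC Q).det ≠ 0 := by
    intro h
    have := congrArg Matrix.det hQ1
    rw [Matrix.det_mul, h, zero_mul, Matrix.det_one] at this
    exact zero_ne_one this
  have hskew : (toC Q)ᵀ = -toC Q := by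
    rw [H.Q_symm, hw.neg_one_zpow, neg_one_smul]
  -- scalars
  have h1G : (1 : Matrix n n ℂ) ∈ LG Γ := by
    obtain ⟨c, hc⟩ := G.LG_sim H (h_mem_o55 G)
    have htr := trace_X_o55 H G
    set X := ∑ p ∈ S, (p : ℂ) • R p with hX
    have h1 : (Xᵀ + toC Q * X * Qi).trace = c * Fintype.card n := by
      have h2 : Xᵀ + toC Q * X * Qi = c • (1 : Matrix n n ℂ) := by
        have h3 := congrArg (fun Y => Y * Qi) hc
        simp only [add_mul, smul_mul_assoc, hQ1] at h3
        rw [mul_assoc Xᵀ, hQ1, mul_one] at h3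
        exact h3
      rw [h2, Matrix.trace_smul, Matrix.trace_one, smul_eq_mul]
    rw [Matrix.trace_add, Matrix.trace_transpose, Matrix.trace_mul_comm, ← mul_assoc, hQ2, one_mul, ← two_mul,
      htr] at h1
    have h2 : c = w := (mul_right_cancel₀ hn0 h1).symm
    have h3 : X - ((w : ℂ) / 2) • (1 : Matrix n n ℂ) ∈ LG Γ := by
      apply hfull
      rw [Matrix.transpose_sub, Matrix.transpose_smul, Matrix.transpose_one, sub_mul, mul_sub, smul_mul_assoc,
        one_mul, mul_smul_comm, mul_one]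
      have e1 : Xᵀ * toC Q - ((w : ℂ) / 2) • toC Q + (toC Q * X - ((w : ℂ) / 2) • toC Q) =
          (Xᵀ * toC Q + toC Q * X) - ((w : ℂ) / 2 + (w : ℂ) / 2) • toC Q := by
        rw [add_smul]
        abel
      rw [e1, hc, h2, add_halves, sub_self]
    have h4 := (LG Γ).sub_mem (h_mem_o55 G) h3
    rw [← hX, sub_sub_cancel] at h4
    have h5 := (LG Γ).smul_mem ((w : ℂ) / 2)⁻¹ h4
    rwa [smul_smul, inv_mul_cancel₀ (div_ne_zero hw0 two_ne_zero), one_smul] at h5
  constructor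
  · intro ht g hg
    have hk : ∀ X : Matrix n n ℂ, Xᵀ * toC Q + toC Q * X = 0 → dL a b t X = 0 := fun X hX => hfull X hX a b t ht
    obtain ⟨z, _, hc, _⟩ := hg
    have hz : z ≠ 0 := by
      rintro rfl
      rw [zero_pow two_ne_zero, zero_smul] at hc
      have h1 : (g : Matrix n n ℂ) * ((g⁻¹ : GL n ℂ) : Matrix n n ℂ) = 1 := by
        rw [← Units.val_mul, mul_inv_cancel, Units.val_one]
      have h1' : ((g⁻¹ : GL n ℂ) : Matrix n n ℂ)ᵀ * (g : Matrix n n ℂ)ᵀ = 1 := by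
        rw [← Matrix.transpose_mul, h1, Matrix.transpose_one]
      have h2 : toC Q = 0 := by
        calc toC Q = (((g⁻¹ : GL n ℂ) : Matrix n n ℂ)ᵀ * (g : Matrix n n ℂ)ᵀ) * toC Q *
              ((g : Matrix n n ℂ) * ((g⁻¹ : GL n ℂ) : Matrix n n ℂ)) := by rw [h1, h1', one_mul, mul_one]
          _ = ((g⁻¹ : GL n ℂ) : Matrix n n ℂ)ᵀ * ((g : Matrix n n ℂ)ᵀ * toC Q * (g : Matrix n n ℂ)) *
              ((g⁻¹ : GL n ℂ) : Matrix n n ℂ) := by simp only [mul_assoc]
          _ = 0 := by rw [hc, mul_zero, zero_mul]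
      rw [h2, zero_mul] at hQ1
      exact zero_ne_one hQ1
    have hsc : ∀ w : ℂ, w ≠ 0 → ∀ f : GL n ℂ, ∃ f' : GL n ℂ, (f' : Matrix n n ℂ) = w • (f : Matrix n n ℂ) := by
      intro w hw f
      refine ⟨⟨w • (f : Matrix n n ℂ), w⁻¹ • ((f⁻¹ : GL n ℂ) : Matrix n n ℂ), ?_, ?_⟩, rfl⟩
      · rw [smul_mul_smul_comm, mul_inv_cancel₀ hw, one_smul, ← Units.val_mul, mul_inv_cancel, Units.val_one]
      · rw [smul_mul_smul_comm, inv_mul_cancel₀ hw, one_smul, ← Units.val_mul, inv_mul_cancel, Units.val_one]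
    obtain ⟨g₀, hg₀⟩ := hsc z⁻¹ (inv_ne_zero hz) g
    obtain ⟨z₁, hz₁⟩ := hsc z hz 1
    have h1 : (g₀ : Matrix n n ℂ)ᵀ * toC Q * (g₀ : Matrix n n ℂ) = toC Q := by
      rw [hg₀, Matrix.transpose_smul, smul_mul_assoc, smul_mul_assoc, mul_smul_comm, smul_smul, hc, smul_smul]
      have : z⁻¹ * z⁻¹ * z ^ 2 = 1 := by field_simp
      rw [this, one_smul]
    have h3 := CY.sp_fix hskew hQd hk h1
    have h4 := scal_fix (a := a) (b := b) (t := t) (h1G a b t ht) (g := z₁) (z := z)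
      (by rw [hz₁, Units.val_one])
    have h5 : g = z₁ * g₀ := by
      apply Units.ext
      rw [Units.val_mul, hz₁, hg₀, Units.val_one, smul_mul_smul_comm, mul_inv_cancel₀ hz, one_smul, one_mul]
    have e1 : slot a b ((z₁ * g₀ : GL n ℂ) : Matrix n n ℂ) (((z₁ * g₀)⁻¹ : GL n ℂ) : Matrix n n ℂ) =
        fun k => slot a b (z₁ : Matrix n n ℂ) ((z₁⁻¹ : GL n ℂ) : Matrix n n ℂ) k *
          slot a b (g₀ : Matrix n n ℂ) ((g₀⁻¹ : GL n ℂ) : Matrix n n ℂ) k := by
      funext k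
      rcases k with k | k
      · rfl
      · simp only [slot, Sum.elim_inr, _root_.mul_inv_rev, Units.val_mul, Matrix.transpose_mul]
    rw [h5, e1, ← actF_mul, h3, h4]
  · intro ht
    refine ⟨Γ, le_rfl, ?_, fun g hg => ?_⟩
    · rw [Subgroup.relIndex_self]
      exact one_ne_zero
    · obtain ⟨c, hc⟩ := G.sim g hg
      obtain ⟨z, hzc⟩ := IsAlgClosed.exists_pow_nat_eq c (n := 2) two_pos
      refine ht g ⟨z, fun h0 => ?_, by rw [hzc]; exact hc, fun h0 => ?_⟩
      · exfalso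
        apply hw0
        rw [h0, Int.cast_zero]
      · exact absurd h0 (Int.not_even_iff_odd.2 hw)


/-- If all skew matrices are in the tensor Lie algebra of `Γ`, the tensors of `Γ` are the tensors fixed by the group of
similitudes. -/
theorem IsGalP.tate_GQ55 [Nonempty n] (H : IsHW w Q S P) (G : IsGalP w Q S P Γ R)
    (hfull : ∀ X : Matrix n n ℂ, Xᵀ * toC Q + toC Q * X = 0 → X ∈ LG Γ)
    (a b : ℕ) (t : (Fin a ⊕ Fin b → n) → ℂ) :
    IsTateTensor Γ a b t ↔ ∀ g : GL n ℂ, IsGQ w Q g →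
      actF (slot a b (g : Matrix n n ℂ) ((g⁻¹ : GL n ℂ) : Matrix n n ℂ)) t = t := by
  rcases Int.even_or_odd w with hw | hw
  · obtain ⟨m, rfl⟩ := hw.two_dvd
    exact tate_GQ_even55 H.toHS G.even hfull a b t
  · exact tate_GQ_odd55 H hw G.odd hfull a b t

end MH
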