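import Pool.Agent.Helper55.UG.Hodge
import Pool.Agent.Helper55.UG.TateGQ

/-!
Project UG (MP_b8862a_ag): the gap theorem with bounds, final form.
-/

set_option linter.unusedSectionVars false

open Matrix

namespace MH

variable {n : Type*} [Fintype n] [DecidableEq n]

/-- The list for three Hodge numbers `s, h, s`: `s ≤ h`, and if `s` is an odd prime number and `h ≠ 2 s`, then
`h = s²`, `2 h + s = s² + 2` or `(s, h) = (3, 8)`. -/
def ThreeList (s h : ℕ) : Prop :=
  s ≤ h ∧ (s.Prime → s ≠ 2 → h ≠ 2 * s → h = s ^ 2 ∨ 2 * h + s = s ^ 2 + 2 ∨ (s = 3 ∧ h = 8))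

/-- The trichotomy: `F` holds; or the matrices `X = R a X R b` with the property `N` are the multiples of one matrix of
rank `s = rank (P a)`, `s` is even if `w` is even, `3 ≤ s` if `w` is odd, `5 s ≤ 2 n`; or there is no such matrix `X ≠ 0`, and
if `w = 2 m` and only `P a`, `P m` and `P b` are not zero, then `s` and `rank (P m)` are in the list `ThreeList`. -/
def Tri (w : ℤ) (P R : ℤ → Matrix n n ℂ) (a b : ℤ) (F : Prop) (N : Matrix n n ℂ → Prop) : Prop :=
  F ∨
  ((Even w → Even (P a).rank) ∧ (Odd w → 3 ≤ (P a).rank) ∧ 5 * (P a).rank ≤ 2 * Fintype.card n ∧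
    ∃ X₀ : Matrix n n ℂ, X₀.rank = (P a).rank ∧
      ∀ X : Matrix n n ℂ, (R a * X * R b = X ∧ N X) ↔ ∃ c : ℂ, X = c • X₀) ∨
  ((∀ X : Matrix n n ℂ, R a * X * R b = X → N X → X = 0) ∧
    ∀ m : ℤ, w = 2 * m → (∀ p, p ≠ a → p ≠ m → p ≠ b → P p = 0) → ThreeList (P a).rank (P m).rank)

variable {w : ℤ} {Q : Matrix n n ℚ} {S : Finset ℤ} {P R : ℤ → Matrix n n ℂ} {Γ : Subgroup (GL n ℂ)}

namespace IsHW

/-- The trichotomy for the Lie algebra of the Mumford-Tate group. -/
theorem gapLH55 (H : IsHW w Q S P)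
    (hEnd : ∀ A : Matrix n n ℚ, (∀ p, toC A * P p = P p * toC A) → ∃ c : ℚ, A = c • (1 : Matrix n n ℚ))
    (hnum : ∀ d k : ℕ, 2 ≤ d → 2 ≤ k → Fintype.card n = d ^ k → (∀ p, d ^ (k - 1) ∣ (P p).rank) → False)
    {a b : ℤ} (haw : a + b = w) (hab : b < a) (htop : ∀ p, a < p → P p = 0) {c : ℤ} (hbc : b < c) (hca : c < a)
    (hPc : P c ≠ 0) :
    Tri w P P a b (∀ X : Matrix n n ℂ, Xᵀ * toC Q + toC Q * X = 0 → X ∈ LH Q S P) (fun X => X ∈ LH Q S P) := by
  have hn : Nonempty n := by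
    by_contra hcon
    rw [not_nonempty_iff] at hcon
    exact hPc (Subsingleton.elim _ _)
  rcases H.tri_LH55 hEnd hnum haw hab htop hbc hca hPc with ⟨h3, h3'⟩ | ⟨h3, h3', h3'', X₀, h4, h4', h5⟩ | h3
  · by_cases hex : ∀ m : ℤ, w = 2 * m → (∀ p, p ≠ a → p ≠ m → p ≠ b → P p = 0) → ThreeList (P a).rank (P m).rank
    · exact Or.inr (Or.inr ⟨h3, hex⟩)
    · left
      push Not at hex
      obtain ⟨m, hwm, hP, hlist⟩ := hex
      have h6 := h3' m hwm hP
      obtain ⟨s, hs⟩ : ∃ s : ℕ, (P a).rank = s := ⟨_, rfl⟩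
      obtain ⟨h, h0⟩ : ∃ h : ℕ, (P m).rank = h := ⟨_, rfl⟩
      rw [hs, h0, ThreeList] at hlist
      rw [hs, h0] at h6
      push Not at hlist
      obtain ⟨sp, s2, e4, x1, x2, x3⟩ := hlist h6
      have s3 : 3 ≤ s := by
        have := sp.two_le
        omega
      have hcm : c = m := by
        by_contra hcm
        exact hPc (hP c (by omega) hcm (by omega))
      subst hcm
      subst hwm
      obtain ⟨k, hk⟩ : ∃ k : ℤ, k = a - c := ⟨_, rfl⟩
      have ha : a = c + k := by omega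
      have hb : b = c - k := by omega
      subst ha
      subst hb
      have hk0 : 0 < k := by omega
      have H' := H.toHS
      have hh : 0 < h := by omega
      have r1 : (fun p => (P p).rank) (c + k) = s := hs
      have r0 : (fun p => (P p).rank) c = h := h0
      have rr : ∀ p, p ≠ c + k → p ≠ c → p ≠ c - k → (fun p => (P p).rank) p = 0 := by
        intro p h2 h3 h4
        simp only [hP p h2 h3 h4, Matrix.rank_zero]
      have hcard : Fintype.card n = 2 * s + h := by rw [card_three2 H' hk0 hP, hs, h0]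
      have h2 : 2 ≤ Fintype.card n := by omega
      have hI : NI.Indec (2 * c) (fun p => (P p).rank) := indec_three55 hk0 r1 r0 rr e4
      intro X hX
      exact so_kills_core H' hEnd hI (core_three55 hk0 h2 r1 r0 rr
        fun ω a b L hL hirr hsk y hy hd hev hs' h0' => by
          have := hL
          exact PG.three_full a b L hirr hsk hy hd hev hs' h0' sp s3 hh x1 x2
            (fun h6 => ⟨by omega, x3 h6⟩)) hnum hX
  · exact Or.inr (Or.inl ⟨h3, h3', h3'', X₀, h4', h5⟩)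
  · exact Or.inl h3

/-- The `ℓ`-adic side, monodromy, if the Lie algebra of the Mumford-Tate group contains all skew matrices. -/
theorem mon55 (H : IsHW w Q S P) (hkill : ∀ X : Matrix n n ℂ, Xᵀ * toC Q + toC Q * X = 0 → X ∈ LH Q S P)
    (h5 : 5 ≤ Fintype.card n) (G : IsGalP w Q S P Γ R) {D : Subgroup (GL n ℚ)} (hD : IsMon Q S P D)
    (hle : mapC D ≤ Γ) (a b : ℕ) (t : (Fin a ⊕ Fin b → n) → ℂ) : IsTateTensor Γ a b t ↔ MTfix S P a b t := by
  have hne : Nonempty n := Fintype.card_pos_iff.mp (by omega)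
  rcases Int.even_or_odd w with hw | hw
  · obtain ⟨m, rfl⟩ := hw.two_dvd
    have H' := H.toHS
    have hMT : ∀ (g : GL n ℂ) (z : ℂ), (m = 0 → z = 1) →
        (g : Matrix n n ℂ)ᵀ * toC Q * (g : Matrix n n ℂ) = z ^ 2 • toC Q →
        (g : Matrix n n ℂ).det = z ^ Fintype.card n → g ∈ MT S P :=
      fun g z hz hg hd => zso_le_MT H' (fun g hg hd => so_le_MT_of H' (fun X hX => hkill X hX) hg hd) hz hg hd
    exact tate_of_full H' G.even hMT (fun X hX => LG_mono hle (hD.full H hw h5 hkill hX)) a b t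
  · obtain ⟨m, rfl⟩ := hw
    exact G.odd.tate_of_mon H (fun g => H.MT_all (fun X hX => hkill X hX) g) hD hle hkill a b t

end IsHW

end MH
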