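import Pool.Agent.Helper55.UG.Tri
import Pool.Agent.Helper3.GAL.GalGap

/-!
Project UG (MP_b8862a_ag): the gap theorem with bounds, matrix form and Galois side.
-/

set_option linter.unusedSectionVars false

open Matrix

namespace MH

variable {n : Type*} [Fintype n] [DecidableEq n]

/-- **The gap theorem in matrix form, with bounds.** A bracket closed irreducible space of matrices that are skew for a symmetric or
alternating form and that contains a diagonalisable matrix whose multiplicities have no common divisor: it contains no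
matrix that maps the lowest eigenspace to the highest one, or one line of these, or all skew matrices. -/
theorem tri_matrix55 [Nonempty n] {ε : ℂ} (hε : ε * ε = 1) {Q' Qi : Matrix n n ℂ} (hQs : Q'ᵀ = ε • Q')
    (hQ1 : Q' * Qi = 1) (hQ2 : Qi * Q' = 1)
    {L : Submodule ℂ (Matrix n n ℂ)} (hbr : ∀ X ∈ L, ∀ Y ∈ L, X * Y - Y * X ∈ L)
    (hirr : ∀ W : Submodule ℂ (n → ℂ), (∀ X ∈ L, ∀ w ∈ W, X *ᵥ w ∈ W) → W = ⊥ ∨ W = ⊤)
    (hsk : ∀ X ∈ L, Xᵀ * Q' + Q' * X = 0) {h : Matrix n n ℂ} (hh : h ∈ L)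
    {E : ℝ → Matrix n n ℂ} {Λ : Finset ℝ} (hE : SD h E Λ)
    (hd : ∀ d : ℕ, (∀ μ ∈ Λ, d ∣ (E μ).rank) → d = 1) {t : ℝ} (ht : 0 < t) (htop : ∀ μ, E μ ≠ 0 → μ ≤ t)
    (h0 : 1 - E t - E (-t) ≠ 0) :
    ((∀ X ∈ L, E t * X * E (-t) = X → X = 0) ∧
      ((∀ ν, ν ≠ t → ν ≠ 0 → ν ≠ -t → E ν = 0) → (E t).rank ≤ (E 0).rank)) ∨
    ((ε = 1 → Even (E t).rank) ∧ (ε = -1 → 3 ≤ (E t).rank) ∧ 5 * (E t).rank ≤ 2 * Fintype.card n ∧
      ∃ X₀ : Matrix n n ℂ, X₀.rank = (E t).rank ∧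
      ∀ X : Matrix n n ℂ, (X ∈ L ∧ E t * X * E (-t) = X) ↔ ∃ c : ℂ, X = c • X₀) ∨
    ∀ X : Matrix n n ℂ, Xᵀ * Q' + Q' * X = 0 → X ∈ L := by
  classical
  obtain ⟨B, Bi, h1, h2, h3, h4⟩ := exists_herm L hbr hirr (fun X hX => tr_of_skew98 hQ1 hQ2 (hsk X hX)) hh hE
  have D := dat_irr98 hε hQs hQ1 hQ2 hbr hirr hsk hh hE h1 h2 h3 h4
  have b1 : Bᵀ * Biᵀ = 1 := by rw [← Matrix.transpose_mul, h2, Matrix.transpose_one]
  have b2 : Biᵀ * Bᵀ = 1 := by rw [← Matrix.transpose_mul, h1, Matrix.transpose_one]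
  have hGiG : B * Qi * Bᵀ * (Biᵀ * Q' * Bi) = 1 := by
    calc B * Qi * Bᵀ * (Biᵀ * Q' * Bi) = B * Qi * (Bᵀ * Biᵀ) * Q' * Bi := by simp only [mul_assoc]
      _ = B * (Qi * Q') * Bi := by rw [b1, mul_one]; simp only [mul_assoc]
      _ = 1 := by rw [hQ2, mul_one, h1]
  have hGGi : Biᵀ * Q' * Bi * (B * Qi * Bᵀ) = 1 := by
    calc Biᵀ * Q' * Bi * (B * Qi * Bᵀ) = Biᵀ * Q' * (Bi * B) * Qi * Bᵀ := by simp only [mul_assoc]
      _ = Biᵀ * (Q' * Qi) * Bᵀ := by rw [h2, mul_one]; simp only [mul_assoc]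
      _ = 1 := by rw [hQ1, mul_one, b2]
  have hF : (Biᵀ * Q' * Bi)ᵀ = ε • (Biᵀ * Q' * Bi) := by
    rw [Matrix.transpose_mul, Matrix.transpose_mul, Matrix.transpose_transpose, hQs, smul_mul_assoc, mul_smul_comm,
      ← mul_assoc]
  -- skew matrices in the new basis
  have hskc : ∀ X : Matrix n n ℂ, Xᵀ * Q' + Q' * X = 0 →
      (cj B Bi X)ᵀ * (Biᵀ * Q' * Bi) + (Biᵀ * Q' * Bi) * cj B Bi X = 0 := by
    intro X hX
    have e1 : (cj B Bi X)ᵀ * (Biᵀ * Q' * Bi) = Biᵀ * (Xᵀ * Q') * Bi := by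
      unfold cj
      rw [Matrix.transpose_mul, Matrix.transpose_mul]
      calc Biᵀ * (Xᵀ * Bᵀ) * (Biᵀ * Q' * Bi) = Biᵀ * Xᵀ * (Bᵀ * Biᵀ) * Q' * Bi := by simp only [mul_assoc]
        _ = _ := by rw [b1, mul_one]; simp only [mul_assoc]
    have e2 : (Biᵀ * Q' * Bi) * cj B Bi X = Biᵀ * (Q' * X) * Bi := by
      unfold cj
      calc Biᵀ * Q' * Bi * (B * X * Bi) = Biᵀ * Q' * (Bi * B) * X * Bi := by simp only [mul_assoc]
        _ = _ := by rw [h2, mul_one]; simp only [mul_assoc]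
    rw [e1, e2, ← Matrix.add_mul, ← Matrix.mul_add, hX, mul_zero, zero_mul]
  have hEE : ∀ μ, E μ * E μ = E μ := fun μ => by rw [hE.mul, if_pos rfl]
  have r1 : ∀ μ, (cj B Bi (E μ)).rank = (E μ).rank := fun μ => rank_cj h1 h2 (hEE μ)
  have htop' : ∀ μ, cj B Bi (E μ) ≠ 0 → μ ≤ t := fun μ hμ => htop μ fun h => hμ (by rw [h, cj_zero])
  have hsmp : (∀ K : Submodule ℂ (Matrix n n ℂ), IsI (LBB27 L B Bi) K → cj B Bi h ∈ K ∨
      cj B Bi h ∈ pp (LBB27 L B Bi) K) → Smp (LBB27 L B Bi) := fun hor =>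
    D.smp_of_or hor (by
      intro d hdd
      refine hd d fun μ hμ => ?_
      rw [← r1 μ]
      exact hdd μ hμ)
  have h0' : 1 - cj B Bi (E t) - cj B Bi (E (-t)) ≠ 0 := by
    intro h5
    apply h0
    have h6 := congrArg (cj Bi B) h5
    rw [← cj_one (B := B) (Bi := Bi) h1, ← cj_sub, ← cj_sub, cj_cj h2, cj_zero] at h6
    exact h6
  have hbot : ∀ μ, E μ ≠ 0 → -t ≤ μ := by
    intro μ hμ
    have e1 : E (-μ) ≠ 0 := by
      intro h5
      apply hμ
      have h6 := E_symm98 hQ1 hQ2 (hsk h hh) hE (-μ)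
      rw [h5, Matrix.transpose_zero, mul_zero, zero_mul, neg_neg] at h6
      exact h6
    have := htop _ e1
    linarith
  have hLd : ∀ X : Matrix n n ℂ, (X ∈ L ∧ E t * X * E (-t) = X) ↔
      cj B Bi X ∈ Ld (LBB27 L B Bi) (cj B Bi h) (2 * t) := by
    intro X
    rw [← hE.top_iff2 htop hbot, mem_Ld, mem_LBB27, cj_cj h2, cj_mul h2, cj_mul h2, ← cj_sub, ← cj_smul]
    refine and_congr_right fun _ => ⟨fun e1 => by rw [e1], fun e1 => ?_⟩
    have e2 := congrArg (cj Bi B) e1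
    rwa [cj_cj h2, cj_cj h2] at e2
  rcases D.tri55 hGGi hGiG hε hF (by
      intro X hX
      have e1 := hskc _ (hsk _ (mem_LBB27.1 hX))
      rwa [cj_cj h1] at e1) ht htop' h0' hsmp with ⟨h5, h5'⟩ | ⟨h5, h6, h7, h7'⟩ | h5
  · left
    refine ⟨?_, fun hlev => ?_⟩
    swap
    · have h8 := h5' fun ν n1 n2 n3 => by rw [hlev ν n1 n2 n3, cj_zero]
      rwa [r1, r1] at h8
    intro X hX hX'
    have e1 := (hLd X).1 ⟨hX, hX'⟩
    rw [h5, Submodule.mem_bot] at e1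
    have e2 := congrArg (cj Bi B) e1
    rwa [cj_cj h2, cj_zero] at e2
  · right; left
    rw [r1] at h6 h7 h7'
    refine ⟨h6, h7, h7', ?_⟩
    obtain ⟨⟨Y, hY⟩, hY0, hYs⟩ := finrank_eq_one_iff'.1 h5
    have hrk := D.rank_ext2 htop' h5 hY (fun h8 => hY0 (Subtype.ext h8))
    refine ⟨cj Bi B Y, ?_, ?_⟩
    · rw [← r1 t, ← hrk]
      unfold cj
      apply le_antisymm
      · exact (Matrix.rank_mul_le_left _ _).trans (Matrix.rank_mul_le_right _ _)
      · have e2 : Y = B * (Bi * Y * B) * Bi := by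
          calc Y = (B * Bi) * Y * (B * Bi) := by rw [h1, one_mul, mul_one]
            _ = _ := by simp only [mul_assoc]
        conv_lhs => rw [e2]
        exact (Matrix.rank_mul_le_left _ _).trans (Matrix.rank_mul_le_right _ _)
    · intro X
      rw [hLd]
      constructor
      · intro hX
        obtain ⟨c, hc⟩ := hYs ⟨_, hX⟩
        refine ⟨c, ?_⟩
        have h8 : c • Y = cj B Bi X := congrArg Subtype.val hc
        rw [← cj_smul, h8, cj_cj h2]
      · rintro ⟨c, hc⟩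
        rw [hc, cj_smul, cj_cj h1]
        exact Submodule.smul_mem _ _ hY
  · right; right
    intro X hX
    have h6 := h5 _ (hskc X hX)
    rwa [mem_LBB27, cj_cj h2] at h6

variable {w m : ℤ} {Q : Matrix n n ℚ} {S : Finset ℤ} {P R : ℤ → Matrix n n ℂ} {Γ : Subgroup (GL n ℂ)}

namespace IsGalP

/-- **The gap theorem for the Lie algebra of the Galois group, with bounds**: `a` and `b` are the highest and the lowest degree, and
there is a third degree. -/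
theorem gap55 (H : IsHW w Q S P) (G : IsGalP w Q S P Γ R) (hirr : VIrr Γ)
    (hd : ∀ d : ℕ, (∀ p, d ∣ (P p).rank) → d = 1)
    {a b : ℤ} (haw : a + b = w) (hab : b < a) (htop : ∀ p, a < p → P p = 0) {c : ℤ} (hbc : b < c) (hca : c < a)
    (hPc : P c ≠ 0) :
    (∀ X : Matrix n n ℂ, Xᵀ * toC Q + toC Q * X = 0 → X ∈ LG Γ) ∨
    ((Even w → Even (P a).rank) ∧ (Odd w → 3 ≤ (P a).rank) ∧ 5 * (P a).rank ≤ 2 * Fintype.card n ∧
      ∃ X₀ : Matrix n n ℂ, X₀.rank = (P a).rank ∧ ∀ X : Matrix n n ℂ,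
      (R a * X * R b = X ∧ X ∈ LG Γ) ↔ ∃ c : ℂ, X = c • X₀) ∨
    ((∀ X : Matrix n n ℂ, R a * X * R b = X → X ∈ LG Γ → X = 0) ∧
      ∀ m : ℤ, w = 2 * m → (∀ p, p ≠ a → p ≠ m → p ≠ b → P p = 0) → (P a).rank ≤ (P m).rank) := by
  classical
  have hn : Nonempty n := by
    by_contra hcon
    rw [not_nonempty_iff] at hcon
    exact hPc (Subsingleton.elim _ _)
  obtain ⟨_, _, Qi, _, _, hQ1, hQ2, _⟩ := H.exists_basis
  obtain ⟨hh, hS⟩ := G.irr3 H hirr hd
  have hε : ((-1 : ℂ) ^ w) * ((-1 : ℂ) ^ w) = 1 := by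
    rw [← mul_zpow]
    norm_num
  obtain ⟨t, htd⟩ : ∃ t : ℝ, t = ((2 * a - w : ℤ) : ℝ) := ⟨_, rfl⟩
  have ht : 0 < t := by
    rw [htd]
    have : (0 : ℤ) < 2 * a - w := by omega
    exact_mod_cast this
  have hEt : G.EP3 t = R a := by rw [htd, G.EP3_int]
  have hEt' : G.EP3 (-t) = R b := by
    have e1 : -t = ((2 * b - w : ℤ) : ℝ) := by
      rw [htd]
      have : (2 * b - w : ℤ) = -(2 * a - w) := by omega
      rw [this]
      push_cast
      ring
    rw [e1, G.EP3_int]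
  have htop' : ∀ μ, G.EP3 μ ≠ 0 → μ ≤ t := by
    intro μ hμ
    by_cases h1 : ∃ p ∈ S, ((2 * p - w : ℤ) : ℝ) = μ
    · obtain ⟨p, _, rfl⟩ := h1
      rw [G.EP3_int] at hμ
      have h2 : P p ≠ 0 := fun h => hμ (G.ne3.2 h)
      have h3 : p ≤ a := by
        by_contra h4
        exact h2 (htop p (by omega))
      rw [htd]
      have : (2 * p - w : ℤ) ≤ 2 * a - w := by omega
      exact_mod_cast this
    · push Not at h1
      exact absurd (G.EP3_other h1) hμ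
  have h0 : 1 - G.EP3 t - G.EP3 (-t) ≠ 0 := by
    rw [hEt, hEt']
    intro h1
    have h2 : (1 - R a - R b) * R c = R c := by
      rw [sub_mul, sub_mul, one_mul, G.mul, G.mul, if_neg (by omega), if_neg (by omega), sub_zero, sub_zero]
    rw [h1, zero_mul] at h2
    exact hPc (G.ne3.1 h2.symm)
  have key := tri_matrix55 hε H.Q_symm hQ1 hQ2 (L := LS Q Γ) (fun X hX Y hY => LS_br hX hY) hS (fun X hX => hX.2) hh
    G.sd3 (fun d h => G.div3 H hd d h) ht htop' h0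
  rw [hEt, hEt'] at key
  rcases key with ⟨h1, h1'⟩ | ⟨h1, h2, h2', X₀, h3, h4⟩ | h1
  · refine Or.inr (Or.inr ⟨fun X hX hL => h1 X (G.skew3 H (by omega) hX hL) hX, fun m hwm hP => ?_⟩)
    have h5 := h1' (by
      intro ν n1 n2 n3
      by_cases hex : ∃ p : ℤ, ν = ((2 * p - w : ℤ) : ℝ)
      · obtain ⟨p, rfl⟩ := hex
        rw [G.EP3_int, G.ne3]
        apply hP
        · rintro rfl
          exact n1 htd.symm
        · rintro rfl
          apply n2
          rw [hwm, sub_self, Int.cast_zero]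
        · rintro rfl
          apply n3
          rw [htd]
          have : (2 * p - w : ℤ) = -(2 * a - w) := by omega
          rw [this]
          push_cast
          ring
      · push Not at hex
        exact G.EP3_other fun p _ => (hex p).symm)
    have E0 : G.EP3 0 = R m := by
      have e1 := G.EP3_int m
      have e2 : (2 * m - w : ℤ) = 0 := by omega
      rw [e2, Int.cast_zero] at e1
      exact e1
    rwa [E0, G.rank, G.rank] at h5
  · rw [G.rank] at h2' h3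
    refine Or.inr (Or.inl ⟨fun hw => ?_, fun hw => ?_, h2', X₀, h3, fun X => ?_⟩)
    · rw [← G.rank a]
      exact h1 (hw.neg_one_zpow)
    · rw [← G.rank a]
      exact h2 (hw.neg_one_zpow)
    · rw [← h4 X]
      exact ⟨fun h => ⟨G.skew3 H (by omega) h.1 h.2, h.1⟩, fun h => ⟨h.2, h.1.1⟩⟩
  · exact Or.inl fun X hX => (h1 X hX).1

/-- **The gap theorem for the Lie algebra of the Galois group, with bounds**, with the list for three Hodge numbers `s, h, s`, `s` an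
odd prime number. -/
theorem gap55p (H : IsHW w Q S P) (G : IsGalP w Q S P Γ R) (hirr : VIrr Γ)
    (hd : ∀ d : ℕ, (∀ p, d ∣ (P p).rank) → d = 1)
    {a b : ℤ} (haw : a + b = w) (hab : b < a) (htop : ∀ p, a < p → P p = 0) {c : ℤ} (hbc : b < c) (hca : c < a)
    (hPc : P c ≠ 0) :
    (∀ X : Matrix n n ℂ, Xᵀ * toC Q + toC Q * X = 0 → X ∈ LG Γ) ∨
    ((Even w → Even (P a).rank) ∧ (Odd w → 3 ≤ (P a).rank) ∧ 5 * (P a).rank ≤ 2 * Fintype.card n ∧
      ∃ X₀ : Matrix n n ℂ, X₀.rank = (P a).rank ∧ ∀ X : Matrix n n ℂ,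
      (R a * X * R b = X ∧ X ∈ LG Γ) ↔ ∃ c : ℂ, X = c • X₀) ∨
    ((∀ X : Matrix n n ℂ, R a * X * R b = X → X ∈ LG Γ → X = 0) ∧
      ∀ m : ℤ, w = 2 * m → (∀ p, p ≠ a → p ≠ m → p ≠ b → P p = 0) → (P a).rank ≤ (P m).rank ∧
        ((P a).rank.Prime → (P a).rank ≠ 2 → (P m).rank ≠ 2 * (P a).rank → (P m).rank = (P a).rank ^ 2 ∨
          2 * (P m).rank + (P a).rank = (P a).rank ^ 2 + 2 ∨ ((P a).rank = 3 ∧ (P m).rank = 8))) := by
  have hn : Nonempty n := by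
    by_contra hcon
    rw [not_nonempty_iff] at hcon
    exact hPc (Subsingleton.elim _ _)
  rcases G.gap55 H hirr hd haw hab htop hbc hca hPc with h3 | h3 | ⟨h3, h3'⟩
  · exact Or.inl h3
  · exact Or.inr (Or.inl h3)
  · rcases G.gap3p H hirr hd haw hab htop hbc hca hPc with h6 | ⟨_, _, X₀, h7, h8⟩ | ⟨h6, h7⟩
    · exact Or.inl h6
    · exfalso
      obtain ⟨h10, h11⟩ := (h8 X₀).2 ⟨1, (one_smul _ _).symm⟩
      exact h7 (h3 X₀ h10 h11)
    · right; right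
      exact ⟨h6, fun m hwm hP => ⟨h3' m hwm hP, fun hp h2 hh => h7 m _ _ hwm rfl rfl hP hp h2 hh⟩⟩

end IsGalP

end MH
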