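import Pool.Agent.Helper55.UG.Small3

/-!
Project UG (MP_b8862a_ag): three eigenvalues `1, 0, -1` and exactly a line of elements of degree two: a bound for the
multiplicity of the eigenvalue `0`.
-/

set_option linter.unusedSectionVars false

open Matrix

namespace MH

variable {n : Type*} [Fintype n] [DecidableEq n]
variable {h : Matrix n n ℂ} {E : ℝ → Matrix n n ℂ} {Λ : Finset ℝ}
variable {τ : Matrix n n ℂ →ₗ[ℂ] Matrix n n ℂ} {L : Submodule ℂ (Matrix n n ℂ)}

/-- a normalised element of degree two, which spans the elements of degree two -/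
structure Ct55 (L : Submodule ℂ (Matrix n n ℂ)) (h : Matrix n n ℂ) (E : ℝ → Matrix n n ℂ) (X : Matrix n n ℂ) :
    Prop where
  mem : X ∈ Ld L h 2
  line : ∀ y ∈ Ld L h 2, ∃ c : ℂ, y = c • X
  right : X * Xᴴ = E 1
  left : Xᴴ * X = E (-1)

/-- the antilinear map `u ↦ [X, uᴴ]` -/
def th55 (X u : Matrix n n ℂ) : Matrix n n ℂ := X * uᴴ - uᴴ * X

lemma th55_star (X u : Matrix n n ℂ) : (th55 X u)ᴴ = u * Xᴴ - Xᴴ * u := by
  rw [th55, conjTranspose_sub, conjTranspose_mul, conjTranspose_mul, conjTranspose_conjTranspose]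

/-- the Casimir elements do not depend on the basis -/
lemma SB_eq55 {d : ℕ} {u v : Fin d → Matrix n n ℂ} (U : Ob55 L h u) (V : Ob55 L h v) : SB55 u = SB55 v := by
  have h1 : ∀ i, v i = ∑ j, ((u j)ᴴ * v i).trace • u j := fun i => U.span _ (V.mem i)
  have h2 : ∀ j, (u j)ᴴ = ∑ i, ((u j)ᴴ * v i).trace • (v i)ᴴ := by
    intro j
    have h3 := congrArg conjTranspose (V.span _ (U.mem j))
    rw [conjTranspose_sum] at h3
    refine h3.trans (Finset.sum_congr rfl fun i _ => ?_)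
    rw [conjTranspose_smul, ← trace_conjTranspose, conjTranspose_mul, conjTranspose_conjTranspose]
  unfold SB55
  calc ∑ j, (u j)ᴴ * u j = ∑ j, (∑ i, ((u j)ᴴ * v i).trace • (v i)ᴴ) * u j := by
        refine Finset.sum_congr rfl fun j _ => ?_
        rw [← h2]
    _ = ∑ j, ∑ i, ((u j)ᴴ * v i).trace • ((v i)ᴴ * u j) := by
        refine Finset.sum_congr rfl fun j _ => ?_
        rw [Finset.sum_mul]
        refine Finset.sum_congr rfl fun i _ => ?_
        rw [smul_mul_assoc]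
    _ = ∑ i, ∑ j, ((u j)ᴴ * v i).trace • ((v i)ᴴ * u j) := Finset.sum_comm
    _ = ∑ i, (v i)ᴴ * v i := by
        refine Finset.sum_congr rfl fun i _ => ?_
        have h3 := congrArg (fun y => (v i)ᴴ * y) (h1 i)
        simp only [Finset.mul_sum, mul_smul_comm] at h3
        exact h3.symm

section
variable (D : Dat τ L h E Λ) (T : Three27 E)
include D T

/-- the shape of the elements of degree one -/
lemma shape55 {u : Matrix n n ℂ} (hu : u ∈ Ld L h 1) :
    u * E 1 = 0 ∧ E (-1) * u = 0 ∧ u * E 0 = E 1 * u ∧ u * E (-1) = E 0 * u ∧ E 1 * u + u * E (-1) = u := by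
  have h1 := mulE55 D hu 1
  have h2 := mulE55 D hu 0
  have h3 := mulE55 D hu (-1)
  have h4 := mulE55 D hu (-2)
  rw [show (1 : ℝ) + 1 = 2 by norm_num, T 2 (by norm_num) (by norm_num) (by norm_num), zero_mul] at h1
  rw [zero_add] at h2
  rw [neg_add_cancel] at h3
  rw [T (-2) (by norm_num) (by norm_num) (by norm_num), mul_zero, show (-2 : ℝ) + 1 = -1 by norm_num] at h4
  refine ⟨h1, h4.symm, h2, h3, ?_⟩
  rw [← h2]
  have h5 : u * (E 1 + E 0 + E (-1)) = u := by rw [D.sum327 T, mul_one]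
  rw [mul_add, mul_add, h1, zero_add] at h5
  exact h5

/-- the normalisation -/
theorem exists_ct55 (hE1 : E 1 ≠ 0) {x : Matrix n n ℂ} (hx : x ∈ Ld L h 2) (hx0 : x ≠ 0)
    (hline : ∀ y ∈ Ld L h 2, ∃ c : ℂ, y = c • x) : ∃ X, Ct55 L h E X := by
  have hEE : ∀ μ, E μ * E μ = E μ := fun μ => by rw [D.spec.mul, if_pos rfl]
  have hsh := D.Ld227 T hx
  have hx1 : E 1 * x = x := by
    conv_lhs => rw [← hsh]
    rw [← mul_assoc, ← mul_assoc, hEE, hsh]
  have hx1' : xᴴ * E 1 = xᴴ := by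
    have := congrArg conjTranspose hx1
    rwa [conjTranspose_mul, D.spec.star] at this
  have ht : (x * xᴴ).trace ≠ 0 := by
    intro h0
    apply hx0
    apply eq_zero_of_trace
    rw [trace_mul_comm, h0]
    rfl
  have hcom : ∀ z ∈ Ld L h 0, x * xᴴ * z = z * (x * xᴴ) := by
    intro z hz
    have e1 := Dat.Ld_bracket D.br hz hx
    rw [zero_add] at e1
    have e2 := Dat.Ld_bracket D.br (D.star_zero55 hz) hx
    rw [zero_add] at e2
    obtain ⟨c, hc⟩ := hline _ e1
    obtain ⟨c', hc'⟩ := hline _ e2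
    have e3 := congrArg conjTranspose hc'
    rw [conjTranspose_sub, conjTranspose_mul, conjTranspose_mul, conjTranspose_conjTranspose,
      conjTranspose_smul] at e3
    have e4 : z * (x * xᴴ) - x * xᴴ * z = (c - star c') • (x * xᴴ) := by
      have : z * (x * xᴴ) - x * xᴴ * z = (z * x - x * z) * xᴴ - x * (xᴴ * z - z * xᴴ) := by noncomm_ring
      rw [this, hc, e3, smul_mul_assoc, mul_smul_comm, sub_smul]
    have e5 := congrArg Matrix.trace e4
    rw [trace_sub, trace_mul_comm z, sub_self, trace_smul, smul_eq_mul] at e5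
    have e6 : c - star c' = 0 := by
      rcases mul_eq_zero.1 e5.symm with h | h
      · exact h
      · exact absurd h ht
    rw [e6, zero_smul] at e4
    exact (sub_eq_zero.1 e4).symm
  obtain ⟨c, hc⟩ := D.top_scalar98 (t := 1) (top27_55 D T) (T := x * xᴴ) (by rw [← mul_assoc, hx1])
    (by rw [mul_assoc, hx1']) hcom
  have hs : ((E 1).rank : ℂ) = (E 1).trace := rank_eq_trace (hEE 1)
  have hs0 : (0 : ℝ) < (E 1).rank := by
    have : (E 1).rank ≠ 0 := by
      intro h0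
      apply hE1
      apply eq_zero_of_trace
      rw [D.spec.star, hEE, ← hs, h0]
      simp
    exact_mod_cast Nat.pos_of_ne_zero this
  have htr : (x * xᴴ).trace = c * (E 1).rank := by rw [hc, trace_smul, smul_eq_mul, hs]
  obtain ⟨r, hr, hcr⟩ : ∃ r : ℝ, 0 < r ∧ c = r := by
    refine ⟨(xᴴ * x).trace.re / (E 1).rank, div_pos (trace_pos hx0) hs0, ?_⟩
    have e1 : (xᴴ * x).trace = ((xᴴ * x).trace.re : ℂ) := by
      apply Complex.ext
      · simp
      · rw [trace_im]; simp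
    have h0 : ((E 1).rank : ℂ) ≠ 0 := by exact_mod_cast hs0.ne'
    push_cast
    rw [eq_div_iff h0, ← e1, trace_mul_comm, htr]
  obtain ⟨k, hk, hkr⟩ : ∃ k : ℝ, 0 < k ∧ k * k * r = 1 := by
    refine ⟨(Real.sqrt r)⁻¹, by positivity, ?_⟩
    have e1 := Real.mul_self_sqrt hr.le
    have e2 : Real.sqrt r ≠ 0 := (Real.sqrt_pos.2 hr).ne'
    field_simp
    rw [sq, e1]
  have hstar : star (k : ℂ) = k := Complex.conj_ofReal k
  have hkk : (k : ℂ) * k * c = 1 := by
    rw [hcr]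
    exact_mod_cast hkr
  refine ⟨(k : ℂ) • x, Submodule.smul_mem _ _ hx, fun y hy => ?_, ?_, ?_⟩
  · obtain ⟨c', hc'⟩ := hline y hy
    refine ⟨c' * (k : ℂ)⁻¹, ?_⟩
    have h0 : (k : ℂ) ≠ 0 := by exact_mod_cast hk.ne'
    rw [hc', smul_smul, mul_assoc, inv_mul_cancel₀ h0, mul_one]
  · rw [conjTranspose_smul, hstar, smul_mul_smul_comm, hc, smul_smul, hkk, one_smul]
  · have e1 := congrArg τ hc
    rw [D.inv.mul, D.inv.star, D.sk x hx.1, map_smul, D.tauE, conjTranspose_neg, neg_mul_neg] at e1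
    rw [conjTranspose_smul, hstar, smul_mul_smul_comm, e1, smul_smul, hkk, one_smul]

end

namespace Ct55

variable {X : Matrix n n ℂ} (C : Ct55 L h E X) (D : Dat τ L h E Λ) (T : Three27 E)
include C D T

lemma X_u {u : Matrix n n ℂ} (hu : u ∈ Ld L h 1) : X * u = 0 ∧ u * X = 0 := by
  obtain ⟨h1, h2, -⟩ := shape55 D T hu
  have h3 := D.Ld227 T C.mem
  constructor
  · rw [← h3, mul_assoc, h2, mul_zero]
  · rw [← h3, ← mul_assoc, ← mul_assoc, h1, zero_mul, zero_mul]

lemma X_E0 : X * E 0 = 0 ∧ E 0 * X = 0 := by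
  have h3 := D.Ld227 T C.mem
  constructor
  · rw [← h3, mul_assoc, D.spec.mul, if_neg (by norm_num), mul_zero]
  · rw [← h3, ← mul_assoc, ← mul_assoc, D.spec.mul, if_neg (by norm_num), zero_mul, zero_mul]

lemma th_mem {u : Matrix n n ℂ} (hu : u ∈ Ld L h 1) : th55 X u ∈ Ld L h 1 := by
  have h1 := Dat.Ld_bracket D.br C.mem (D.star_one55 hu)
  rwa [show (2 : ℝ) + -1 = 1 by norm_num] at h1

lemma th_th {u : Matrix n n ℂ} (hu : u ∈ Ld L h 1) : th55 X (th55 X u) = -u := by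
  obtain ⟨h1, h2⟩ := C.X_u D T hu
  obtain ⟨-, -, -, -, h3⟩ := shape55 D T hu
  have h4 : th55 X (th55 X u) = X * u * Xᴴ - X * Xᴴ * u - u * (Xᴴ * X) + Xᴴ * (u * X) := by
    rw [th55, th55_star]
    noncomm_ring
  rw [h4, h1, h2, C.right, C.left, zero_mul, mul_zero, add_zero, zero_sub]
  conv_rhs => rw [← h3]
  abel

lemma th_iso {u v : Matrix n n ℂ} (hu : u ∈ Ld L h 1) (hv : v ∈ Ld L h 1) :
    ((th55 X u)ᴴ * th55 X v).trace = (vᴴ * u).trace := by
  obtain ⟨h1, h2⟩ := C.X_u D T hu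
  obtain ⟨h1', h2'⟩ := C.X_u D T hv
  obtain ⟨-, -, -, -, h3⟩ := shape55 D T hu
  have h5 : Xᴴ * vᴴ = 0 := by rw [← conjTranspose_mul, h2', conjTranspose_zero]
  have h4 : (th55 X u)ᴴ * th55 X v = u * (Xᴴ * X) * vᴴ - u * (Xᴴ * vᴴ) * X - Xᴴ * (u * X) * vᴴ + Xᴴ * (u * vᴴ * X) := by
    rw [th55_star, th55]
    noncomm_ring
  rw [h4, h5, h2, C.left]
  simp only [mul_zero, zero_mul, sub_zero]
  rw [trace_add, trace_mul_comm Xᴴ, mul_assoc (u * vᴴ), C.right, trace_mul_comm (u * E (-1)), mul_assoc u,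
    trace_mul_comm u, ← trace_add, mul_assoc, ← mul_add, add_comm, h3]

end Ct55

end MH
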