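import Pool.Agent.Helper55.UG.Contact

/-!
Project UG (MP_b8862a_ag): three eigenvalues `1, 0, -1` and exactly a line of elements of degree two, continued.
-/

set_option linter.unusedSectionVars false

open Matrix

namespace MH

variable {n : Type*} [Fintype n] [DecidableEq n]
variable {h : Matrix n n ℂ} {E : ℝ → Matrix n n ℂ} {Λ : Finset ℝ}
variable {τ : Matrix n n ℂ →ₗ[ℂ] Matrix n n ℂ} {L : Submodule ℂ (Matrix n n ℂ)}

namespace Ct55

variable {X : Matrix n n ℂ} (C : Ct55 L h E X) (D : Dat τ L h E Λ) (T : Three27 E)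
variable {d : ℕ} {u : Fin d → Matrix n n ℂ} (U : Ob55 L h u)
include C D T U

/-- the images under `θ` form an orthonormal basis -/
lemma th_ob : Ob55 L h (fun i => th55 X (u i)) where
  mem i := C.th_mem D T (U.mem i)
  orth i j := by
    rw [C.th_iso D T (U.mem i) (U.mem j), U.orth]
    by_cases hij : i = j
    · rw [if_pos hij, if_pos hij.symm]
    · rw [if_neg hij, if_neg (Ne.symm hij)]
  span m hm := by
    have h1 := U.span _ (C.th_mem D T hm)
    have h2 := C.th_th D T hm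
    have h3 : ∀ (f : Fin d → ℂ), th55 X (∑ i, f i • u i) = ∑ i, star (f i) • th55 X (u i) := by
      intro f
      unfold th55
      rw [conjTranspose_sum, Finset.mul_sum, Finset.sum_mul, ← Finset.sum_sub_distrib]
      refine Finset.sum_congr rfl fun i _ => ?_
      rw [conjTranspose_smul, mul_smul_comm, smul_mul_assoc, smul_sub]
    rw [h1, h3] at h2
    have h4 : ∀ i, star ((u i)ᴴ * th55 X m).trace = -((th55 X (u i))ᴴ * m).trace := by
      intro i
      rw [← trace_conjTranspose, conjTranspose_mul, conjTranspose_conjTranspose]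
      have h5 := C.th_iso D T (U.mem i) (C.th_mem D T hm)
      rw [C.th_th D T hm, mul_neg, trace_neg] at h5
      exact h5.symm
    have h6 : m = -∑ i, star ((u i)ᴴ * th55 X m).trace • th55 X (u i) := by rw [h2, neg_neg]
    calc m = -∑ i, star ((u i)ᴴ * th55 X m).trace • th55 X (u i) := h6
      _ = _ := by
        rw [← Finset.sum_neg_distrib]
        refine Finset.sum_congr rfl fun i _ => ?_
        rw [h4, neg_smul, neg_neg]

/-- the two Casimir elements agree on the middle eigenspace -/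
lemma SA_SB : SA55 u * E 0 = SB55 u * E 0 := by
  have hEE : E 0 * E 0 = E 0 := D.E00
  have h1 := SB_eq55 U (C.th_ob D T U)
  have h2 : SB55 u * E 0 = E 0 * SB55 u * E 0 := by rw [← SB_E55 D U, mul_assoc, hEE]
  have h3 : SA55 u * E 0 = E 0 * SA55 u * E 0 := by rw [← SA_E55 D U, mul_assoc, hEE]
  rw [h2, h3, h1]
  unfold SA55 SB55
  rw [Finset.mul_sum, Finset.mul_sum, Finset.sum_mul, Finset.sum_mul]
  refine Finset.sum_congr rfl fun i _ => ?_
  obtain ⟨k1, k2⟩ := C.X_E0 D T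
  have k3 : E 0 * Xᴴ = 0 := by
    have := congrArg conjTranspose k1
    rwa [conjTranspose_mul, D.spec.star, conjTranspose_zero] at this
  obtain ⟨-, -, -, h4, -⟩ := shape55 D T (U.mem i)
  have h5 : u i * E (-1) * (u i)ᴴ = E 0 * u i * (u i)ᴴ := by rw [h4]
  change E 0 * (u i * (u i)ᴴ) * E 0 = E 0 * ((th55 X (u i))ᴴ * th55 X (u i)) * E 0
  rw [th55_star]
  unfold th55
  have e1 : E 0 * ((u i * Xᴴ - Xᴴ * u i) * (X * (u i)ᴴ - (u i)ᴴ * X)) * E 0 =
      E 0 * (u i * (Xᴴ * X) * (u i)ᴴ) * E 0 - E 0 * u i * Xᴴ * (u i)ᴴ * (X * E 0) -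
      (E 0 * Xᴴ) * (u i * X * (u i)ᴴ) * E 0 + (E 0 * Xᴴ) * (u i * (u i)ᴴ) * (X * E 0) := by noncomm_ring
  rw [e1, k1, k3, C.left, h5]
  simp only [mul_zero, zero_mul, sub_zero, add_zero]
  simp only [← mul_assoc, hEE]

/-- the commutators of elements of degree one -/
lemma br_expand (i j : Fin d) : u j * u i - u i * u j =
    (((th55 X (u i))ᴴ * u j).trace / (E 1).rank) • X := by
  have hEE : ∀ μ, E μ * E μ = E μ := fun μ => by rw [D.spec.mul, if_pos rfl]
  have h1 := Dat.Ld_bracket D.br (U.mem j) (U.mem i)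
  rw [show (1 : ℝ) + 1 = 2 by norm_num] at h1
  obtain ⟨c, hc⟩ := C.line _ h1
  by_cases hE1 : E 1 = 0
  · have hX : X = 0 := by
      have := D.Ld227 T C.mem
      rw [hE1, zero_mul, zero_mul] at this
      exact this.symm
    rw [hc, hX, smul_zero, smul_zero]
  have hs : ((E 1).rank : ℂ) = (E 1).trace := rank_eq_trace (hEE 1)
  have hs0 : ((E 1).rank : ℂ) ≠ 0 := by
    intro h0
    apply hE1
    apply eq_zero_of_trace
    rw [D.spec.star, hEE, ← hs, h0]
    rfl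
  have h2 : (Xᴴ * (u j * u i - u i * u j)).trace = c * (E 1).rank := by
    rw [hc, mul_smul_comm, trace_smul, smul_eq_mul, trace_mul_comm, C.right, hs]
  have h3 : (Xᴴ * (u j * u i - u i * u j)).trace = ((th55 X (u i))ᴴ * u j).trace := by
    rw [th55_star, mul_sub, sub_mul, trace_sub, trace_sub]
    congr 1
    · rw [← mul_assoc, mul_assoc (u i), trace_mul_comm (u i)]
    · rw [← mul_assoc]
  rw [hc]
  congr 1
  rw [eq_div_iff hs0, ← h2, h3]

/-- the sum of the squares of the commutators on the middle eigenspace -/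
theorem comm_sum {κ : ℂ} (h1 : SA55 u * E 1 = κ • E 1) (h2 : SB55 u * E (-1) = κ • E (-1)) :
    ∑ i, ∑ j, (((u j)ᴴ * u i - u i * (u j)ᴴ) * E 0)ᴴ * (((u j)ᴴ * u i - u i * (u j)ᴴ) * E 0) =
      (2 * (κ + 1 / (E 1).rank)) • (SB55 u * E 0) - (2 : ℂ) • (SB55 u * E 0 * (SB55 u * E 0)) := by
  have hEE : E 0 * E 0 = E 0 := D.E00
  have h3 := C.SA_SB D T U
  have e1 : ∀ i, u i * E 0 = E 1 * u i := fun i => (shape55 D T (U.mem i)).2.2.1
  have e2 : ∀ i, (u i)ᴴ * E 0 = E (-1) * (u i)ᴴ := fun i => by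
    have := mulE55 D (D.star_one55 (U.mem i)) 0
    rwa [zero_add] at this
  have hcB : E 0 * SB55 u * E 0 = SB55 u * E 0 := by rw [← SB_E55 D U, mul_assoc, hEE]
  have hcA : E 0 * SA55 u * E 0 = SB55 u * E 0 := by rw [← SA_E55 D U, mul_assoc, hEE, h3]
  obtain ⟨k1, k2⟩ := C.X_E0 D T
  have hsC : star ((E 1).rank : ℂ) = (E 1).rank := Complex.conj_natCast _
  -- the commutators
  have hsum1 : ∀ i, ∑ j, (((th55 X (u i))ᴴ * u j).trace / (E 1).rank) • (u j)ᴴ =
      (1 / (E 1).rank : ℂ) • (th55 X (u i))ᴴ := by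
    intro i
    have f1 := congrArg conjTranspose (U.span _ (C.th_mem D T (U.mem i)))
    rw [conjTranspose_sum] at f1
    conv_rhs => rw [f1]
    rw [Finset.smul_sum]
    refine Finset.sum_congr rfl fun j _ => ?_
    rw [conjTranspose_smul, smul_smul, ← trace_conjTranspose, conjTranspose_mul, conjTranspose_conjTranspose]
    congr 1
    ring
  have hsum2 : ∀ i, ∑ j, (star ((th55 X (u i))ᴴ * u j).trace / (E 1).rank) • u j =
      (1 / (E 1).rank : ℂ) • th55 X (u i) := by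
    intro i
    have f1 := congrArg conjTranspose (hsum1 i)
    rw [conjTranspose_sum, conjTranspose_smul, conjTranspose_conjTranspose] at f1
    have f2 : star (1 / (E 1).rank : ℂ) = 1 / (E 1).rank := by
      rw [star_div₀, star_one, hsC]
    rw [f2] at f1
    rw [← f1]
    refine Finset.sum_congr rfl fun j _ => ?_
    rw [conjTranspose_smul, conjTranspose_conjTranspose, star_div₀, hsC]
  -- the four terms
  have t1 : ∑ i, ∑ j, E 0 * (u i)ᴴ * (u j * (u j)ᴴ) * (u i * E 0) = κ • (SB55 u * E 0) := by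
    have k1 : ∀ i, ∑ j, E 0 * (u i)ᴴ * (u j * (u j)ᴴ) * (u i * E 0) = κ • (E 0 * ((u i)ᴴ * u i) * E 0) := by
      intro i
      rw [← Finset.sum_mul, ← Finset.mul_sum]
      change E 0 * (u i)ᴴ * SA55 u * (u i * E 0) = _
      rw [e1, mul_assoc, ← mul_assoc (SA55 u), h1, smul_mul_assoc, ← e1, mul_smul_comm]
      congr 1
      simp only [mul_assoc]
    rw [Finset.sum_congr rfl fun i _ => k1 i, ← Finset.smul_sum, ← Finset.sum_mul, ← Finset.mul_sum]
    change κ • (E 0 * SB55 u * E 0) = _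
    rw [hcB]
  have t4 : ∑ i, ∑ j, E 0 * u j * ((u i)ᴴ * u i) * ((u j)ᴴ * E 0) = κ • (SB55 u * E 0) := by
    rw [Finset.sum_comm]
    have k1 : ∀ j, ∑ i, E 0 * u j * ((u i)ᴴ * u i) * ((u j)ᴴ * E 0) = κ • (E 0 * (u j * (u j)ᴴ) * E 0) := by
      intro j
      rw [← Finset.sum_mul, ← Finset.mul_sum]
      change E 0 * u j * SB55 u * ((u j)ᴴ * E 0) = _
      rw [e2, mul_assoc, ← mul_assoc (SB55 u), h2, smul_mul_assoc, ← e2, mul_smul_comm]
      congr 1
      simp only [mul_assoc]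
    rw [Finset.sum_congr rfl fun i _ => k1 i, ← Finset.smul_sum, ← Finset.sum_mul, ← Finset.mul_sum]
    change κ • (E 0 * SA55 u * E 0) = _
    rw [hcA]
  have t2 : ∑ i, ∑ j, E 0 * ((u i)ᴴ * u i) * (u j * (u j)ᴴ) * E 0 = SB55 u * E 0 * (SB55 u * E 0) := by
    have k1 : ∀ i, ∑ j, E 0 * ((u i)ᴴ * u i) * (u j * (u j)ᴴ) * E 0 = E 0 * ((u i)ᴴ * u i) * (SA55 u * E 0) := by
      intro i
      rw [← Finset.sum_mul, ← Finset.mul_sum, mul_assoc]
      rfl
    rw [Finset.sum_congr rfl fun i _ => k1 i, ← Finset.sum_mul, ← Finset.mul_sum]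
    change E 0 * SB55 u * (SA55 u * E 0) = _
    rw [← SB_E55 D U, h3]
  have t3 : ∑ i, ∑ j, E 0 * (u j * (u j)ᴴ) * ((u i)ᴴ * u i) * E 0 = SB55 u * E 0 * (SB55 u * E 0) := by
    rw [Finset.sum_comm]
    have k1 : ∀ j, ∑ i, E 0 * (u j * (u j)ᴴ) * ((u i)ᴴ * u i) * E 0 = E 0 * (u j * (u j)ᴴ) * (SB55 u * E 0) := by
      intro j
      rw [← Finset.sum_mul, ← Finset.mul_sum, mul_assoc]
      rfl
    rw [Finset.sum_congr rfl fun i _ => k1 i, ← Finset.sum_mul, ← Finset.mul_sum]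
    change E 0 * SA55 u * (SB55 u * E 0) = _
    rw [← SA_E55 D U, h3]
  -- the corrections
  have c2 : ∑ i, ∑ j, E 0 * (u i)ᴴ * (u j * u i - u i * u j) * (u j)ᴴ * E 0 =
      -((1 / (E 1).rank : ℂ) • (SB55 u * E 0)) := by
    have k3 : ∀ i, ∑ j, E 0 * (u i)ᴴ * (u j * u i - u i * u j) * (u j)ᴴ * E 0 =
        -((1 / (E 1).rank : ℂ) • (E 0 * ((u i)ᴴ * u i) * E 0)) := by
      intro i
      have f1 : ∀ j, E 0 * (u i)ᴴ * (u j * u i - u i * u j) * (u j)ᴴ * E 0 =
          E 0 * (u i)ᴴ * X * ((((th55 X (u i))ᴴ * u j).trace / (E 1).rank) • (u j)ᴴ) * E 0 := by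
        intro j
        rw [C.br_expand D T U i j]
        simp only [mul_smul_comm, smul_mul_assoc]
      rw [Finset.sum_congr rfl fun j _ => f1 j, ← Finset.sum_mul, ← Finset.mul_sum, hsum1, th55_star]
      obtain ⟨g1, g2⟩ := C.X_u D T (U.mem i)
      have f2 : E 0 * (u i)ᴴ * X * (u i * Xᴴ - Xᴴ * u i) * E 0 =
          E 0 * (u i)ᴴ * (X * u i) * Xᴴ * E 0 - E 0 * (u i)ᴴ * ((X * Xᴴ) * u i) * E 0 := by noncomm_ring
      rw [mul_smul_comm, smul_mul_assoc, f2, g1, C.right, ← e1]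
      simp only [mul_zero, zero_mul, zero_sub, smul_neg, mul_assoc, hEE]
    rw [Finset.sum_congr rfl fun i _ => k3 i, Finset.sum_neg_distrib, ← Finset.smul_sum, ← Finset.sum_mul,
      ← Finset.mul_sum]
    change -((1 / (E 1).rank : ℂ) • (E 0 * SB55 u * E 0)) = _
    rw [hcB]
  have c3 : ∑ i, ∑ j, E 0 * u j * ((u i)ᴴ * (u j)ᴴ - (u j)ᴴ * (u i)ᴴ) * u i * E 0 =
      -((1 / (E 1).rank : ℂ) • (SB55 u * E 0)) := by
    have k3 : ∀ i, ∑ j, E 0 * u j * ((u i)ᴴ * (u j)ᴴ - (u j)ᴴ * (u i)ᴴ) * u i * E 0 =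
        -((1 / (E 1).rank : ℂ) • (E 0 * ((u i)ᴴ * u i) * E 0)) := by
      intro i
      have f1 : ∀ j, E 0 * u j * ((u i)ᴴ * (u j)ᴴ - (u j)ᴴ * (u i)ᴴ) * u i * E 0 =
          E 0 * ((star ((th55 X (u i))ᴴ * u j).trace / (E 1).rank) • u j) * (Xᴴ * u i * E 0) := by
        intro j
        have f2 := congrArg conjTranspose (C.br_expand D T U i j)
        rw [conjTranspose_sub, conjTranspose_mul, conjTranspose_mul, conjTranspose_smul, star_div₀, hsC] at f2
        rw [f2]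
        simp only [mul_smul_comm, smul_mul_assoc, mul_assoc]
      rw [Finset.sum_congr rfl fun j _ => f1 j, ← Finset.sum_mul, ← Finset.mul_sum, hsum2]
      unfold th55
      have f2 : E 0 * (X * (u i)ᴴ - (u i)ᴴ * X) * (Xᴴ * u i * E 0) =
          (E 0 * X) * (u i)ᴴ * (Xᴴ * u i * E 0) - E 0 * (u i)ᴴ * ((X * Xᴴ) * u i) * E 0 := by noncomm_ring
      rw [mul_smul_comm, smul_mul_assoc, f2, k2, C.right, ← e1]
      simp only [zero_mul, zero_sub, smul_neg, mul_assoc, hEE]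
    rw [Finset.sum_congr rfl fun i _ => k3 i, Finset.sum_neg_distrib, ← Finset.smul_sum, ← Finset.sum_mul,
      ← Finset.mul_sum]
    change -((1 / (E 1).rank : ℂ) • (E 0 * SB55 u * E 0)) = _
    rw [hcB]
  have hterm : ∀ i j, (((u j)ᴴ * u i - u i * (u j)ᴴ) * E 0)ᴴ * (((u j)ᴴ * u i - u i * (u j)ᴴ) * E 0) =
      (E 0 * (u i)ᴴ * (u j * (u j)ᴴ) * (u i * E 0) + E 0 * u j * ((u i)ᴴ * u i) * ((u j)ᴴ * E 0)) -
      (E 0 * ((u i)ᴴ * u i) * (u j * (u j)ᴴ) * E 0 + E 0 * (u j * (u j)ᴴ) * ((u i)ᴴ * u i) * E 0) -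
      (E 0 * (u i)ᴴ * (u j * u i - u i * u j) * (u j)ᴴ * E 0 +
        E 0 * u j * ((u i)ᴴ * (u j)ᴴ - (u j)ᴴ * (u i)ᴴ) * u i * E 0) := by
    intro i j
    rw [conjTranspose_mul, conjTranspose_sub, conjTranspose_mul, conjTranspose_mul, conjTranspose_conjTranspose,
      D.spec.star]
    noncomm_ring
  rw [Finset.sum_congr rfl fun i _ => Finset.sum_congr rfl fun j _ => hterm i j]
  simp only [Finset.sum_sub_distrib, Finset.sum_add_distrib]
  rw [t1, t2, t3, t4, c2, c3]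
  module

end Ct55

end MH
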