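import Pool.Agent.Helper55.UG.Contact2

/-!
Project UG (MP_b8862a_ag): three eigenvalues `1, 0, -1` and exactly a line of elements of degree two: the inequality.
-/

set_option linter.unusedSectionVars false

open Matrix

namespace MH

variable {n : Type*} [Fintype n] [DecidableEq n]
variable {h : Matrix n n ℂ} {E : ℝ → Matrix n n ℂ} {Λ : Finset ℝ}
variable {τ : Matrix n n ℂ →ₗ[ℂ] Matrix n n ℂ} {L : Submodule ℂ (Matrix n n ℂ)}

namespace Dat

variable (D : Dat τ L h E Λ) (T : Three27 E)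
include D T

/-- if the middle eigenspace is not zero, there are elements of degree one -/
lemma one_ne55 (hE1 : E 1 ≠ 0) (hE0 : E 0 ≠ 0) : Ld L h 1 ≠ ⊥ := by
  intro hL1
  have hLm : Ld L h (-1) = ⊥ := by
    rw [eq_bot_iff]
    intro x hx
    have h3 := D.star_mone55 hx
    rw [hL1, Submodule.mem_bot] at h3
    rw [Submodule.mem_bot, ← conjTranspose_conjTranspose x, h3, conjTranspose_zero]
  have hEE : ∀ μ, E μ * E μ = E μ := fun μ => by rw [D.spec.mul, if_pos rfl]
  have hall : ∀ x ∈ L, E 0 * x = x * E 0 := by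
    intro x hx
    obtain ⟨a, ha, b, hb, c, hc, e, he, f, hf, rfl⟩ := D.five27 T hx
    rw [hL1, Submodule.mem_bot] at hb
    rw [hLm, Submodule.mem_bot] at he
    subst hb he
    have h1 := D.Ld227 T ha
    have h2 := D.Ldm227 T hf
    have h3 := D.Ld_comm_E98 hc 0
    have a1 : E 0 * a = 0 := by
      rw [← h1, ← mul_assoc, ← mul_assoc, D.spec.mul, if_neg (by norm_num), zero_mul, zero_mul]
    have a2 : a * E 0 = 0 := by
      rw [← h1, mul_assoc, D.spec.mul, if_neg (by norm_num), mul_zero]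
    have f1 : E 0 * f = 0 := by
      rw [← h2, ← mul_assoc, ← mul_assoc, D.spec.mul, if_neg (by norm_num), zero_mul, zero_mul]
    have f2 : f * E 0 = 0 := by
      rw [← h2, mul_assoc, D.spec.mul, if_neg (by norm_num), mul_zero]
    rw [add_zero, add_zero, mul_add, mul_add, add_mul, add_mul, a1, a2, f1, f2, h3]
  obtain ⟨c, hc⟩ := D.irr (E 0) hall
  have h1 : E 0 * E 1 = 0 := by rw [D.spec.mul, if_neg (by norm_num)]
  rw [hc, smul_mul_assoc, one_mul] at h1
  have h2 : c = 0 := (smul_eq_zero.1 h1).resolve_right hE1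
  apply hE0
  rw [hc, h2, zero_smul]

/-- **The middle eigenspace is large**, contact case. If the elements of degree two form a line, then
`d * rank (E 1) ≤ (d + 2) * rank (E 0)` for the dimension `d ≥ 2` of the space of elements of degree one. -/
theorem contact55 (hE1 : E 1 ≠ 0) (hE0 : E 0 ≠ 0) {x : Matrix n n ℂ} (hx : x ∈ Ld L h 2) (hx0 : x ≠ 0)
    (hline : ∀ y ∈ Ld L h 2, ∃ c : ℂ, y = c • x) :
    2 ≤ Module.finrank ℂ (Ld L h 1) ∧ Module.finrank ℂ (Ld L h 1) * (E 1).rank ≤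
      (Module.finrank ℂ (Ld L h 1) + 2) * (E 0).rank := by
  have hEE : ∀ μ, E μ * E μ = E μ := fun μ => by rw [D.spec.mul, if_pos rfl]
  have hs : (0 : ℝ) < (E 1).rank := by
    have : (E 1).rank ≠ 0 := by
      intro h0
      apply hE1
      apply eq_zero_of_trace
      rw [D.spec.star, hEE, ← rank_eq_trace (hEE 1), h0]
      simp
    exact_mod_cast Nat.pos_of_ne_zero this
  obtain ⟨X, C⟩ := exists_ct55 D T hE1 hx hx0 hline
  obtain ⟨u, hu1, hu2, hu3⟩ := exists_onb98 (Ld L h 1)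
  have U : Ob55 L h u := ⟨hu1, hu2, hu3⟩
  have hne := D.one_ne55 T hE1 hE0
  have hd2 : 2 ≤ Module.finrank ℂ (Ld L h 1) := by
    by_contra hcon
    have h0 : Module.finrank ℂ (Ld L h 1) ≠ 0 := fun h0 => hne (Submodule.finrank_eq_zero.1 h0)
    have h1 : Module.finrank ℂ (Ld L h 1) = 1 := by omega
    obtain ⟨i, hi⟩ : ∃ i : Fin (Module.finrank ℂ (Ld L h 1)), ∀ j, j = i := by
      refine ⟨⟨0, by omega⟩, fun j => ?_⟩
      apply Fin.ext
      have := j.2
      simp only
      omega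
    have h2 : ∀ m ∈ Ld L h 1, m = ((u i)ᴴ * m).trace • u i := by
      intro m hm
      have h3 := hu3 m hm
      rw [Finset.sum_eq_single i (fun j _ hj => absurd (hi j) hj) (fun h => absurd (Finset.mem_univ i) h)] at h3
      exact h3
    obtain ⟨c, hc⟩ : ∃ c : ℂ, th55 X (u i) = c • u i := ⟨_, h2 _ (C.th_mem D T (hu1 i))⟩
    have h4 := C.th_th D T (hu1 i)
    have h5 : th55 X (c • u i) = star c • th55 X (u i) := by
      unfold th55
      rw [conjTranspose_smul, mul_smul_comm, smul_mul_assoc, smul_sub]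
    rw [hc, h5, hc, smul_smul] at h4
    have h6 : (star c * c + 1) • u i = 0 := by rw [add_smul, h4, one_smul, neg_add_cancel]
    have h7 : u i ≠ 0 := by
      intro h0
      have := hu2 i i
      rw [h0, if_pos rfl, mul_zero, trace_zero] at this
      exact zero_ne_one this
    have h8 := (smul_eq_zero.1 h6).resolve_right h7
    have h9 : star c * c = ((‖c‖ ^ 2 : ℝ) : ℂ) := by
      have := Complex.conj_mul' c
      rw [Complex.ofReal_pow]
      exact this
    rw [h9] at h8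
    have h10 : ‖c‖ ^ 2 + 1 = 0 := by exact_mod_cast h8
    nlinarith [sq_nonneg ‖c‖]
  refine ⟨hd2, ?_⟩
  obtain ⟨κ, h1, h2⟩ := kap55 D T U
  obtain ⟨k1, k2⟩ := kap_tr55 D T U h1 h2
  have hsum := C.comm_sum D T U h1 h2
  obtain ⟨d, hd⟩ : ∃ d : ℕ, d = Module.finrank ℂ (Ld L h 1) := ⟨_, rfl⟩
  rw [← hd] at k1 hd2 ⊢
  have hs0 : ((E 1).rank : ℂ) ≠ 0 := by exact_mod_cast hs.ne'
  have hd0 : (0 : ℝ) < d := by
    have : 0 < d := by omega
    exact_mod_cast this
  obtain ⟨r, hr, hκ, hrs⟩ : ∃ r : ℝ, 0 < r ∧ κ = r ∧ 2 * r * (E 1).rank = d := by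
    refine ⟨d / (2 * (E 1).rank), by positivity, ?_, ?_⟩
    · push_cast
      rw [eq_div_iff (by simpa using hs0), ← k1]
      ring
    · field_simp
  obtain ⟨k, hk, hkr⟩ : ∃ k : ℝ, 0 < k ∧ k = r + 1 / (E 1).rank := ⟨r + 1 / (E 1).rank, by positivity, rfl⟩
  have hkC : κ + 1 / (E 1).rank = (k : ℂ) := by
    rw [hκ, hkr]
    push_cast
    rfl
  rw [hkC] at hsum
  obtain ⟨A, hA⟩ : ∃ A, A = SB55 u * E 0 := ⟨_, rfl⟩
  rw [← hA] at hsum k2
  have hAs : Aᴴ = A := by
    rw [hA, conjTranspose_mul, D.spec.star, SB_star55, SB_E55 D U]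
  have hnn : 0 ≤ (2 * (k : ℂ) * A.trace - 2 * (A * A).trace).re := by
    have e1 := congrArg Matrix.trace hsum
    rw [trace_sub, trace_smul, trace_smul, smul_eq_mul, smul_eq_mul, trace_sum] at e1
    rw [← e1, Complex.re_sum]
    refine Finset.sum_nonneg fun i _ => ?_
    rw [trace_sum, Complex.re_sum]
    exact Finset.sum_nonneg fun j _ => trace_nonneg _
  have hCS : ∀ c : ℝ, 0 ≤ (A * A).trace.re - 2 * c * (r * (E 1).rank) + c ^ 2 * (E 0).rank := by
    intro c
    have e1 := trace_nonneg (A - (c : ℂ) • E 0)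
    have hAE : A * E 0 = A := by rw [hA, mul_assoc, hEE]
    have hEA : E 0 * A = A := by
      have := congrArg conjTranspose hAE
      rwa [conjTranspose_mul, hAs, D.spec.star] at this
    have e2 : (A - (c : ℂ) • E 0)ᴴ * (A - (c : ℂ) • E 0) = A * A - (2 * c : ℂ) • A + (c ^ 2 : ℂ) • E 0 := by
      rw [conjTranspose_sub, conjTranspose_smul, hAs, D.spec.star, sub_mul, mul_sub, mul_sub, smul_mul_assoc,
        smul_mul_assoc, mul_smul_comm, mul_smul_comm, hAE, hEA, hEE]
      have e3 : star (c : ℂ) = c := Complex.conj_ofReal c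
      rw [e3]
      module
    rw [e2, trace_add, trace_sub, trace_smul, trace_smul, k2, ← rank_eq_trace (hEE 0), hκ] at e1
    have e4 : ((A * A).trace - (2 * c : ℂ) • ((r : ℂ) * (E 1).rank) + (c ^ 2 : ℂ) • ((E 0).rank : ℂ)).re =
        (A * A).trace.re - 2 * c * (r * (E 1).rank) + c ^ 2 * (E 0).rank := by
      have : ((A * A).trace - (2 * c : ℂ) • ((r : ℂ) * (E 1).rank) + (c ^ 2 : ℂ) • ((E 0).rank : ℂ)) =
        (A * A).trace + (((-2 * c * (r * (E 1).rank) + c ^ 2 * (E 0).rank : ℝ)) : ℂ) := by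
        push_cast
        simp only [smul_eq_mul]
        ring
      rw [this, Complex.add_re, Complex.ofReal_re]
      ring
    rwa [e4] at e1
  have hup : (A * A).trace.re ≤ k * (r * (E 1).rank) := by
    rw [k2, hκ] at hnn
    have e1 : (2 * (k : ℂ) * ((r : ℂ) * (E 1).rank) - 2 * (A * A).trace).re =
        2 * k * (r * (E 1).rank) - 2 * (A * A).trace.re := by
      have : (2 * (k : ℂ) * ((r : ℂ) * (E 1).rank) - 2 * (A * A).trace) =
          ((2 * k * (r * (E 1).rank) : ℝ) : ℂ) - ((2 : ℝ) : ℂ) * (A * A).trace := by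
        push_cast
        ring
      rw [this, Complex.sub_re, Complex.ofReal_re, Complex.re_ofReal_mul]
    rw [e1] at hnn
    nlinarith
  have h4 := hCS k
  have h5 : 0 ≤ k * (k * (E 0).rank - r * (E 1).rank) := by nlinarith
  have h6 : r * (E 1).rank ≤ k * (E 0).rank := by
    have := nonneg_of_mul_nonneg_right h5 hk
    linarith
  have h7 : 2 * k * (E 1).rank = d + 2 := by
    rw [hkr, mul_add, add_mul, hrs]
    field_simp
  have h8 : (d : ℝ) * (E 1).rank ≤ (d + 2) * (E 0).rank := by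
    calc (d : ℝ) * (E 1).rank = 2 * (E 1).rank * (r * (E 1).rank) := by rw [← hrs]; ring
      _ ≤ 2 * (E 1).rank * (k * (E 0).rank) := mul_le_mul_of_nonneg_left h6 (by positivity)
      _ = (d + 2) * (E 0).rank := by rw [← h7]; ring
  exact_mod_cast h8

/-- The bound in the contact case without the number `d`. -/
theorem contact_half55 (hE1 : E 1 ≠ 0) (hE0 : E 0 ≠ 0) {x : Matrix n n ℂ} (hx : x ∈ Ld L h 2) (hx0 : x ≠ 0)
    (hline : ∀ y ∈ Ld L h 2, ∃ c : ℂ, y = c • x) : (E 1).rank ≤ 2 * (E 0).rank := by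
  obtain ⟨h1, h2⟩ := D.contact55 T hE1 hE0 hx hx0 hline
  obtain ⟨d, hd⟩ : ∃ d : ℕ, d = Module.finrank ℂ (Ld L h 1) := ⟨_, rfl⟩
  rw [← hd] at h1 h2
  have h3 : (d + 2) * (E 0).rank ≤ d * (2 * (E 0).rank) := by nlinarith
  have h4 : d * (E 1).rank ≤ d * (2 * (E 0).rank) := h2.trans h3
  exact Nat.le_of_mul_le_mul_left h4 (by omega)

end Dat

end MH
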