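import Pool.Agent.Helper55.UG.Tri

/-!
Project UG (MP_b8862a_ag): the gap theorem with bounds, Hodge side.
-/

set_option linter.unusedSectionVars false

open Matrix

namespace MH

variable {n : Type*} [Fintype n] [DecidableEq n]
variable {w : ℤ} {Q : Matrix n n ℚ} {S : Finset ℤ} {P : ℤ → Matrix n n ℂ}

namespace IsHW

/-- The trichotomy for the Lie algebra of the Mumford-Tate group, with bounds. -/
theorem tri_LH55 (H : IsHW w Q S P)
    (hEnd : ∀ A : Matrix n n ℚ, (∀ p, toC A * P p = P p * toC A) → ∃ c : ℚ, A = c • (1 : Matrix n n ℚ))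
    (hnum : ∀ d k : ℕ, 2 ≤ d → 2 ≤ k → Fintype.card n = d ^ k → (∀ p, d ^ (k - 1) ∣ (P p).rank) → False)
    {a b : ℤ} (haw : a + b = w) (hab : b < a) (htop : ∀ p, a < p → P p = 0) {c : ℤ} (hbc : b < c) (hca : c < a)
    (hPc : P c ≠ 0) :
    ((∀ X : Matrix n n ℂ, P a * X * P b = X → X ∈ LH Q S P → X = 0) ∧
      ∀ m : ℤ, w = 2 * m → (∀ p, p ≠ a → p ≠ m → p ≠ b → P p = 0) → (P a).rank ≤ (P m).rank) ∨
    ((Even w → Even (P a).rank) ∧ (Odd w → 3 ≤ (P a).rank) ∧ 5 * (P a).rank ≤ 2 * Fintype.card n ∧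
      ∃ X₀ : Matrix n n ℂ, X₀ ≠ 0 ∧
      X₀.rank = (P a).rank ∧ ∀ X : Matrix n n ℂ, (P a * X * P b = X ∧ X ∈ LH Q S P ↔ ∃ c : ℂ, X = c • X₀)) ∨
    ∀ X : Matrix n n ℂ, Xᵀ * toC Q + toC Q * X = 0 → X ∈ LH Q S P := by
  classical
  have hn : Nonempty n := by
    by_contra hcon
    rw [not_nonempty_iff] at hcon
    exact hPc (Subsingleton.elim _ _)
  obtain ⟨B, Bi, Qi, h1, h2, h3, h4, hM⟩ := H.exists_basis
  have D := H.datW hEnd h1 h2 h3 h4 hM
  have hPP : ∀ p, P p * P p = P p := fun p => by rw [H.mul, if_pos rfl]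
  obtain ⟨c', hc, hQc⟩ : ∃ c : ℂ, c = (-1 : ℂ) ^ w ∧ (toC Q)ᵀ = c • toC Q := ⟨(-1 : ℂ) ^ w, rfl, H.Q_symm⟩
  have hcc : c' * c' = 1 := by rw [hc, sgn_mul]
  have b1 : Bᵀ * Biᵀ = 1 := by rw [← Matrix.transpose_mul, h2, Matrix.transpose_one]
  have b2 : Biᵀ * Bᵀ = 1 := by rw [← Matrix.transpose_mul, h1, Matrix.transpose_one]
  have f1 : Biᵀ * toC Q * Bi * (B * Qi * Bᵀ) = 1 := by
    calc Biᵀ * toC Q * Bi * (B * Qi * Bᵀ) = Biᵀ * toC Q * (Bi * B) * Qi * Bᵀ := by simp only [mul_assoc]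
      _ = Biᵀ * (toC Q * Qi) * Bᵀ := by rw [h2, mul_one]; simp only [mul_assoc]
      _ = 1 := by rw [h3, mul_one, b2]
  have f2 : B * Qi * Bᵀ * (Biᵀ * toC Q * Bi) = 1 := by
    calc B * Qi * Bᵀ * (Biᵀ * toC Q * Bi) = B * Qi * (Bᵀ * Biᵀ) * toC Q * Bi := by simp only [mul_assoc]
      _ = B * (Qi * toC Q) * Bi := by rw [b1, mul_one]; simp only [mul_assoc]
      _ = 1 := by rw [h4, mul_one, h1]
  have hF : (Biᵀ * toC Q * Bi)ᵀ = c' • (Biᵀ * toC Q * Bi) := by
    rw [Matrix.transpose_mul, Matrix.transpose_mul, Matrix.transpose_transpose, hQc, Matrix.smul_mul, Matrix.mul_smul,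
      mul_assoc]
  have hsk : ∀ Y ∈ LB Q S P B Bi, Yᵀ * (Biᵀ * toC Q * Bi) + (Biᵀ * toC Q * Bi) * Y = 0 := by
    intro Y hY
    have e1 := skew_cj2 (B := B) h2 (mem_LB.1 hY).1
    rwa [cj_cj h1] at e1
  -- the levels
  have hta : ((2 * a - w : ℤ) : ℝ) = ((a - b : ℤ) : ℝ) := by
    congr 1
    omega
  have htb : ((2 * b - w : ℤ) : ℝ) = -((a - b : ℤ) : ℝ) := by
    rw [← Int.cast_neg]
    congr 1
    omega
  have Ea : EW w S P B Bi ((a - b : ℤ) : ℝ) = cj B Bi (P a) := by rw [← hta, H.EW_int]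
  have Eb : EW w S P B Bi (-((a - b : ℤ) : ℝ)) = cj B Bi (P b) := by rw [← htb, H.EW_int]
  have ht : (0 : ℝ) < ((a - b : ℤ) : ℝ) := by
    have : (0 : ℤ) < a - b := by omega
    exact_mod_cast this
  have htop' : ∀ μ, EW w S P B Bi μ ≠ 0 → μ ≤ ((a - b : ℤ) : ℝ) := by
    intro μ hμ
    obtain ⟨p, hp⟩ : ∃ p : ℤ, μ = ((2 * p - w : ℤ) : ℝ) := by
      by_contra hne
      push Not at hne
      exact hμ (EW_other B Bi fun p _ => (hne p).symm)
    rw [hp, H.EW_int] at hμ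
    rw [hp]
    have h5 : p ≤ a := by
      by_contra hcon
      push Not at hcon
      rw [htop p hcon, cj_zero] at hμ
      exact hμ rfl
    have h6 : 2 * p - w ≤ a - b := by omega
    exact_mod_cast h6
  have h0 : 1 - EW w S P B Bi ((a - b : ℤ) : ℝ) - EW w S P B Bi (-((a - b : ℤ) : ℝ)) ≠ 0 := by
    intro hcon
    apply hPc
    have e1 : (1 - P a - P b) = 0 := by
      have e2 := congrArg (cj Bi B) hcon
      rw [Ea, Eb, cj_sub, cj_sub, cj_one h2, cj_cj h2, cj_cj h2, cj_zero] at e2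
      exact e2
    have e3 : (1 - P a - P b) * P c = P c := by
      rw [sub_mul, sub_mul, one_mul, H.mul, H.mul, if_neg (by omega), if_neg (by omega), sub_zero, sub_zero]
    rw [← e3, e1, zero_mul]
  have hLd : ∀ x : Matrix n n ℂ, x ∈ Ld (LB Q S P B Bi) (cj B Bi (hw w S P)) (2 * ((a - b : ℤ) : ℝ)) ↔
      P a * cj Bi B x * P b = cj Bi B x ∧ cj Bi B x ∈ LH Q S P := by
    intro x
    have e1 : x ∈ Ld (LB Q S P B Bi) (cj B Bi (hw w S P)) (2 * ((a - b : ℤ) : ℝ)) ↔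
        x ∈ LB Q S P B Bi ∧ cj B Bi (hw w S P) * x - x * cj B Bi (hw w S P) =
          ((2 * ((a - b : ℤ) : ℝ) : ℝ) : ℂ) • x := Iff.rfl
    rw [e1, H.deg_iff_comm2 haw htop, mem_LB, and_comm]
    refine and_congr_left fun _ => ?_
    generalize hw w S P = T
    have e2 : cj B Bi T * x - x * cj B Bi T = cj B Bi (T * cj Bi B x - cj Bi B x * T) := by
      rw [cj_sub, ← cj_mul h2, ← cj_mul h2, cj_cj h1]
    have e3 : ((2 * ((a - b : ℤ) : ℝ) : ℝ) : ℂ) = ((2 * (a - b) : ℤ) : ℂ) := by push_cast; ring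
    rw [e2, e3]
    constructor
    · intro e4
      have e5 := congrArg (cj Bi B) e4
      rwa [cj_cj h2, cj_smul] at e5
    · intro e4
      rw [e4, cj_smul, cj_cj h1]
  have hsmp : (∀ K : Submodule ℂ (Matrix n n ℂ), IsI (LB Q S P B Bi) K → cj B Bi (hw w S P) ∈ K ∨
      cj B Bi (hw w S P) ∈ pp (LB Q S P B Bi) K) → Smp (LB Q S P B Bi) := by
    intro hor
    have r1 : ∀ p : ℤ, (EW w S P B Bi ((2 * p - w : ℤ) : ℝ)).rank = (P p).rank := fun p => by
      rw [H.EW_int, rank_cj h1 h2 (hPP p)]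
    have hcjφ : ∀ (σ : ℂ ≃+* ℂ) (x : Matrix n n ℂ), cj Bi B (phi98 h1 h2 σ x) = (cj Bi B x).map σ :=
      fun σ x => cj_cj h2 _
    have hcjψ : ∀ (σ : ℂ ≃+* ℂ) (x : Matrix n n ℂ), cj Bi B ((phi98 h1 h2 σ).symm x) = (cj Bi B x).map σ.symm :=
      fun σ x => cj_cj h2 _
    rcases D.dich_or hor (phi98 h1 h2) (fun σ => σ) (by
        intro σ c x
        show cj B Bi ((cj Bi B (c • x)).map σ) = σ c • cj B Bi ((cj Bi B x).map σ)
        have e1 : (cj Bi B (c • x)).map σ = σ c • (cj Bi B x).map σ := by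
          rw [cj_smul]
          ext i j
          simp
        rw [e1, cj_smul]) (by
        intro σ x hx
        rw [mem_LB, hcjφ]
        exact LH_aut σ hx) (by
        intro σ x hx
        rw [mem_LB, hcjψ]
        exact LH_aut σ.symm hx) (by
        intro T hT
        have hdes := H.descent (T := cj Bi B T) (by
          intro σ
          have h5 := hT σ
          have h6 := congrArg (cj Bi B) h5
          rw [← cj_mul h1, ← cj_mul h1, hcjφ, cj_cj h2] at h6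
          exact h6)
        obtain ⟨c, hc⟩ := EC_scalar98 hEnd hdes
        refine ⟨c, ?_⟩
        have h8 := congrArg (cj B Bi) hc
        rw [cj_cj h1, cj_smul, cj_one h1] at h8
        exact h8) with h5 | ⟨d, k, hd, hk, hcard, hdvd⟩
    · exact h5
    · exfalso
      refine hnum d k hd hk hcard fun p => ?_
      rw [← r1]
      exact hdvd _
  rcases D.tri55 f1 f2 hcc hF hsk ht htop' h0 hsmp with ⟨h5, h5'⟩ | ⟨h5, h6, h7, h7'⟩ | h5
  · left
    refine ⟨?_, fun m hwm hP => ?_⟩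
    swap
    · have hcm : c = m := by
        by_contra hcm
        exact hPc (hP c (by omega) hcm (by omega))
      have hlev : ∀ ν : ℝ, ν ≠ ((a - b : ℤ) : ℝ) → ν ≠ 0 → ν ≠ -((a - b : ℤ) : ℝ) → EW w S P B Bi ν = 0 := by
        intro ν n1 n2 n3
        by_cases hex : ∃ p : ℤ, ν = ((2 * p - w : ℤ) : ℝ)
        · obtain ⟨p, rfl⟩ := hex
          rw [H.EW_int, hP p, cj_zero]
          · rintro rfl
            exact n1 hta
          · rintro rfl
            apply n2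
            rw [hwm, sub_self, Int.cast_zero]
          · rintro rfl
            exact n3 htb
        · push Not at hex
          exact EW_other B Bi fun p _ => (hex p).symm
      have h8 := h5' hlev
      have E0 : EW w S P B Bi 0 = cj B Bi (P m) := by
        have e1 := H.EW_int B Bi m
        rw [hwm, sub_self, Int.cast_zero] at e1
        rw [hwm]
        exact e1
      rw [Ea, E0, rank_cj h1 h2 (hPP a), rank_cj h1 h2 (hPP m)] at h8
      exact h8
    intro X hX hXL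
    have e1 := (hLd (cj B Bi X)).2 (by rw [cj_cj h2]; exact ⟨hX, hXL⟩)
    rw [h5, Submodule.mem_bot] at e1
    have e2 := congrArg (cj Bi B) e1
    rwa [cj_cj h2, cj_zero] at e2
  · right; left
    have hr : (EW w S P B Bi ((a - b : ℤ) : ℝ)).rank = (P a).rank := by rw [Ea, rank_cj h1 h2 (hPP a)]
    rw [hr] at h6 h7
    rw [hr] at h7'
    refine ⟨fun hw => h6 (by rw [hc, hw.neg_one_zpow]), fun hw => h7 (by rw [hc, hw.neg_one_zpow]), h7', ?_⟩
    obtain ⟨⟨x, hx⟩, hx0, hx1⟩ := finrank_eq_one_iff'.1 h5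
    have hx0' : x ≠ 0 := fun h => hx0 (Subtype.ext h)
    have hrk := D.rank_ext2 htop' h5 hx hx0'
    refine ⟨cj Bi B x, ?_, ?_, fun X => ?_⟩
    · intro hcon
      apply hx0'
      have e2 := congrArg (cj B Bi) hcon
      rw [cj_cj h1, cj_zero] at e2
      exact e2
    · rw [← hr, ← hrk]
      unfold cj
      apply le_antisymm
      · exact (Matrix.rank_mul_le_left _ _).trans (Matrix.rank_mul_le_right _ _)
      · have e2 : x = B * (Bi * x * B) * Bi := by
          calc x = (B * Bi) * x * (B * Bi) := by rw [h1, one_mul, mul_one]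
            _ = _ := by simp only [mul_assoc]
        conv_lhs => rw [e2]
        exact (Matrix.rank_mul_le_left _ _).trans (Matrix.rank_mul_le_right _ _)
    · constructor
      · rintro ⟨hX, hXL⟩
        have e1 := (hLd (cj B Bi X)).2 (by rw [cj_cj h2]; exact ⟨hX, hXL⟩)
        obtain ⟨c, hc⟩ := hx1 ⟨_, e1⟩
        refine ⟨c, ?_⟩
        have e2 : c • x = cj B Bi X := congrArg Subtype.val hc
        rw [← cj_smul, e2, cj_cj h2]
      · rintro ⟨c, rfl⟩
        have e1 := (hLd (c • x)).1 ((Ld (LB Q S P B Bi) _ _).smul_mem c hx)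
        rwa [cj_smul] at e1
  · right; right
    intro X hX
    have e1 := h5 _ (skew_cj2 (B := B) h2 hX)
    rwa [mem_LB, cj_cj h2] at e1

/-- **The gap theorem with bounds** for the Mumford-Tate group of a polarised Hodge structure of weight `w` with only
rational endomorphisms: `a` and `b` are the highest and the lowest degree, and there is a third degree. -/
theorem gap55 (H : IsHW w Q S P)
    (hEnd : ∀ A : Matrix n n ℚ, (∀ p, toC A * P p = P p * toC A) → ∃ c : ℚ, A = c • (1 : Matrix n n ℚ))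
    (hnum : ∀ d k : ℕ, 2 ≤ d → 2 ≤ k → Fintype.card n = d ^ k → (∀ p, d ^ (k - 1) ∣ (P p).rank) → False)
    {a b : ℤ} (haw : a + b = w) (hab : b < a) (htop : ∀ p, a < p → P p = 0) {c : ℤ} (hbc : b < c) (hca : c < a)
    (hPc : P c ≠ 0) :
    (∀ g : GL n ℂ, g ∈ MT S P ↔ ∃ z : ℂ, (w = 0 → z = 1) ∧
      (g : Matrix n n ℂ)ᵀ * toC Q * (g : Matrix n n ℂ) = z ^ 2 • toC Q ∧
        (Even w → (g : Matrix n n ℂ).det = z ^ Fintype.card n)) ∨
    ((Even w → Even (P a).rank) ∧ (Odd w → 3 ≤ (P a).rank) ∧ 5 * (P a).rank ≤ 2 * Fintype.card n ∧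
      ∃ X₀ : Matrix n n ℂ, X₀.rank = (P a).rank ∧ ∀ X : Matrix n n ℂ,
        (P a * X * P b = X ∧ (∃ g ∈ MT S P, (g : Matrix n n ℂ) = 1 + X)) ↔ ∃ c : ℂ, X = c • X₀) ∨
    ((∀ X : Matrix n n ℂ, P a * X * P b = X → (∃ g ∈ MT S P, (g : Matrix n n ℂ) = 1 + X) → X = 0) ∧
      ∀ m : ℤ, w = 2 * m → (∀ p, p ≠ a → p ≠ m → p ≠ b → P p = 0) → (P a).rank ≤ (P m).rank ∧
        ((P a).rank.Prime → (P a).rank ≠ 2 → (P m).rank ≠ 2 * (P a).rank → (P m).rank = (P a).rank ^ 2 ∨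
          2 * (P m).rank + (P a).rank = (P a).rank ^ 2 + 2 ∨ ((P a).rank = 3 ∧ (P m).rank = 8))) := by
  have hn : Nonempty n := by
    by_contra hcon
    rw [not_nonempty_iff] at hcon
    exact hPc (Subsingleton.elim _ _)
  rcases H.tri_LH55 hEnd hnum haw hab htop hbc hca hPc with ⟨h3, h3'⟩ | ⟨h3, h3', h3'', X₀, h4, h4', h5⟩ | h3
  · rcases H.gap2 hEnd hnum haw hab htop hbc hca hPc with h6 | ⟨_, _, X₀, h7, h8, h9⟩ | ⟨h6, h7⟩
    · exact Or.inl h6
    · exfalso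
      obtain ⟨h10, h11⟩ := (h9 X₀).2 ⟨1, (one_smul _ _).symm⟩
      exact h7 (h3 X₀ h10 ((H.deg_iff2 h10 (by omega) haw).2 h11))
    · right; right
      exact ⟨h6, fun m hwm hP => ⟨h3' m hwm hP, fun hp h2 hh => h7 m _ _ hwm rfl rfl hP hp h2 hh⟩⟩
  · right; left
    refine ⟨h3, h3', h3'', X₀, h4', fun X => ?_⟩
    rw [← h5 X]
    exact and_congr_right fun hX => (H.deg_iff2 hX (by omega) haw).symm
  · exact Or.inl fun g => H.MT_full2 h3 g

end IsHW

end MH
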