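import Pool.Agent.Helper98.PG.Ext
import Pool.Agent.Helper27.GP.Irr

/-!
Project UG (MP_b8862a_ag): three eigenvalues `1, 0, -1`, no elements of degree two. Then the multiplicity of the
eigenvalue `0` is at least the multiplicity of the eigenvalue `1`.
-/

open Matrix

namespace MH

variable {n : Type*} [Fintype n] [DecidableEq n]
variable {h : Matrix n n ℂ} {E : ℝ → Matrix n n ℂ} {Λ : Finset ℝ}
variable {τ : Matrix n n ℂ →ₗ[ℂ] Matrix n n ℂ} {L : Submodule ℂ (Matrix n n ℂ)}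

namespace Dat

variable (D : Dat τ L h E Λ)
include D

lemma ldm2_55 (h2 : Ld L h 2 = ⊥) : Ld L h (-2) = ⊥ := by
  rw [eq_bot_iff]
  intro x hx
  have h3 : xᴴ ∈ Ld L h 2 := by
    have := D.Ld_star27 hx
    rwa [neg_neg] at this
  rw [h2, Submodule.mem_bot] at h3
  rw [Submodule.mem_bot, ← conjTranspose_conjTranspose x, h3, conjTranspose_zero]

/-- the elements of degree one commute -/
lemma one_comm55 (h2 : Ld L h 2 = ⊥) {x y : Matrix n n ℂ} (hx : x ∈ Ld L h 1) (hy : y ∈ Ld L h 1) :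
    x * y = y * x := by
  have h3 := Ld_bracket D.br hx hy
  rw [show (1 : ℝ) + 1 = 2 by norm_num, h2, Submodule.mem_bot] at h3
  exact sub_eq_zero.1 h3

lemma star_one55 {x : Matrix n n ℂ} (hx : x ∈ Ld L h 1) : xᴴ ∈ Ld L h (-1) := D.Ld_star27 hx

lemma star_mone55 {x : Matrix n n ℂ} (hx : x ∈ Ld L h (-1)) : xᴴ ∈ Ld L h 1 := by
  have := D.Ld_star27 hx
  rwa [neg_neg] at this

lemma star_zero55 {x : Matrix n n ℂ} (hx : x ∈ Ld L h 0) : xᴴ ∈ Ld L h 0 := by
  have := D.Ld_star27 hx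
  rwa [neg_zero] at this

lemma br_zero55 {x y : Matrix n n ℂ} (hx : x ∈ Ld L h 1) (hy : y ∈ Ld L h 1) : x * yᴴ - yᴴ * x ∈ Ld L h 0 := by
  have h3 := Ld_bracket D.br hx (D.star_one55 hy)
  rwa [show (1 : ℝ) + -1 = 0 by norm_num] at h3

lemma br_one55 {z x : Matrix n n ℂ} (hz : z ∈ Ld L h 0) (hx : x ∈ Ld L h 1) : z * x - x * z ∈ Ld L h 1 := by
  have h3 := Ld_bracket D.br hz hx
  rwa [show (0 : ℝ) + 1 = 1 by norm_num] at h3

end Dat

/-- the ideal generated by a space of elements of degree one -/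
def I55 (M : Submodule ℂ (Matrix n n ℂ)) : Submodule ℂ (Matrix n n ℂ) :=
  M ⊔ Submodule.span ℂ {z | ∃ m ∈ M, ∃ m' ∈ M, z = m * m'ᴴ - m'ᴴ * m} ⊔ Submodule.span ℂ {z | ∃ m ∈ M, z = mᴴ}

lemma I55_M {M : Submodule ℂ (Matrix n n ℂ)} {m : Matrix n n ℂ} (hm : m ∈ M) : m ∈ I55 M :=
  Submodule.mem_sup_left (Submodule.mem_sup_left hm)

lemma I55_N {M : Submodule ℂ (Matrix n n ℂ)} {m m' : Matrix n n ℂ} (hm : m ∈ M) (hm' : m' ∈ M) :
    m * m'ᴴ - m'ᴴ * m ∈ I55 M :=
  Submodule.mem_sup_left (Submodule.mem_sup_right (Submodule.subset_span ⟨m, hm, m', hm', rfl⟩))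

lemma I55_S {M : Submodule ℂ (Matrix n n ℂ)} {m : Matrix n n ℂ} (hm : m ∈ M) : mᴴ ∈ I55 M :=
  Submodule.mem_sup_right (Submodule.subset_span ⟨m, hm, rfl⟩)

lemma I55_ind {M P : Submodule ℂ (Matrix n n ℂ)} (h1 : ∀ m ∈ M, m ∈ P)
    (h2 : ∀ m ∈ M, ∀ m' ∈ M, m * m'ᴴ - m'ᴴ * m ∈ P) (h3 : ∀ m ∈ M, mᴴ ∈ P) : I55 M ≤ P := by
  refine sup_le (sup_le h1 ?_) ?_
  · rw [Submodule.span_le]
    rintro _ ⟨m, hm, m', hm', rfl⟩
    exact h2 m hm m' hm'
  · rw [Submodule.span_le]
    rintro _ ⟨m, hm, rfl⟩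
    exact h3 m hm

/-- the map `y ↦ [x, y]` -/
def ad55 (x : Matrix n n ℂ) : Matrix n n ℂ →ₗ[ℂ] Matrix n n ℂ where
  toFun y := x * y - y * x
  map_add' a b := by rw [mul_add, add_mul]; abel
  map_smul' c a := by rw [mul_smul_comm, smul_mul_assoc, RingHom.id_apply, smul_sub]

lemma ad55_apply (x y : Matrix n n ℂ) : ad55 x y = x * y - y * x := rfl

lemma ad55_star (x y : Matrix n n ℂ) : (ad55 x y)ᴴ = -ad55 xᴴ yᴴ := by
  rw [ad55_apply, ad55_apply, conjTranspose_sub, conjTranspose_mul, conjTranspose_mul]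
  abel

lemma ad55_jac (x y z : Matrix n n ℂ) : ad55 x (ad55 y z) = ad55 (ad55 x y) z + ad55 y (ad55 x z) := by
  simp only [ad55_apply]
  noncomm_ring

lemma ad55_swap (x y : Matrix n n ℂ) : ad55 x y = -ad55 y x := by
  simp only [ad55_apply]
  abel

lemma I55_star {M : Submodule ℂ (Matrix n n ℂ)} {x : Matrix n n ℂ} (hx : x ∈ I55 M) : xᴴ ∈ I55 M := by
  let P : Submodule ℂ (Matrix n n ℂ) :=
    { carrier := {x | xᴴ ∈ I55 M}
      add_mem' := fun {a b} ha hb => by
        change (a + b)ᴴ ∈ I55 M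
        rw [conjTranspose_add]
        exact add_mem ha hb
      zero_mem' := by
        change (0 : Matrix n n ℂ)ᴴ ∈ I55 M
        rw [conjTranspose_zero]
        exact zero_mem _
      smul_mem' := fun c a ha => by
        change (c • a)ᴴ ∈ I55 M
        rw [conjTranspose_smul]
        exact Submodule.smul_mem _ _ ha }
  have h1 : I55 M ≤ P := by
    apply I55_ind
    · intro m hm
      exact I55_S hm
    · intro m hm m' hm'
      change (m * m'ᴴ - m'ᴴ * m)ᴴ ∈ I55 M
      rw [conjTranspose_sub, conjTranspose_mul, conjTranspose_mul, conjTranspose_conjTranspose]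
      exact I55_N hm' hm
    · intro m hm
      change (mᴴ)ᴴ ∈ I55 M
      rw [conjTranspose_conjTranspose]
      exact I55_M hm
  exact h1 hx

namespace Dat

variable (D : Dat τ L h E Λ) (T : Three27 E)
include D

/-- The elements of degree one that are orthogonal to `M` commute with the adjoints of the elements of `M`. -/
lemma perp_comm55 {M : Submodule ℂ (Matrix n n ℂ)} (hM1 : M ≤ Ld L h 1)
    (hM0 : ∀ z ∈ Ld L h 0, ∀ m ∈ M, z * m - m * z ∈ M) {x : Matrix n n ℂ} (hx : x ∈ Ld L h 1)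
    (hp : ∀ y ∈ M, (yᴴ * x).trace = 0) {m : Matrix n n ℂ} (hm : m ∈ M) : x * mᴴ = mᴴ * x := by
  have hw := D.br_zero55 hx (hM1 hm)
  obtain ⟨w, hwe⟩ : ∃ w, w = x * mᴴ - mᴴ * x := ⟨_, rfl⟩
  rw [← hwe] at hw
  have h1 := hp _ (hM0 w hw m hm)
  rw [conjTranspose_sub, conjTranspose_mul, conjTranspose_mul, sub_mul, trace_sub] at h1
  have h2 : (wᴴ * w).trace = 0 := by
    conv_lhs => rw [hwe, ← hwe]
    calc (wᴴ * w).trace = (wᴴ * (x * mᴴ - mᴴ * x)).trace := by rw [← hwe]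
      _ = (wᴴ * x * mᴴ).trace - (wᴴ * mᴴ * x).trace := by rw [mul_sub, trace_sub, ← mul_assoc, ← mul_assoc]
      _ = (mᴴ * wᴴ * x).trace - (wᴴ * mᴴ * x).trace := by rw [trace_mul_comm, ← mul_assoc]
      _ = 0 := h1
  have h3 : w = 0 := eq_zero_of_trace (by rw [h2]; rfl)
  rw [hwe] at h3
  exact sub_eq_zero.1 h3

include T

/-- **The elements of degree one.** If `L` is simple and has no elements of degree two, then the elements of degree
one are irreducible under the elements of degree zero. -/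
theorem irr_one55 (hsmp : ∀ K ≤ L, (∀ X ∈ L, ∀ Y ∈ K, X * Y - Y * X ∈ K) → K = ⊥ ∨ K = L) (h2 : Ld L h 2 = ⊥) {M : Submodule ℂ (Matrix n n ℂ)} (hM1 : M ≤ Ld L h 1)
    (hM0 : ∀ z ∈ Ld L h 0, ∀ m ∈ M, z * m - m * z ∈ M) (hne : M ≠ ⊥) : M = Ld L h 1 := by
  -- splitting
  have hsplit : ∀ x ∈ Ld L h 1, ∃ a ∈ M, ∃ b ∈ Ld L h 1, x = a + b ∧ ∀ m ∈ M, ad55 b mᴴ = 0 := by
    intro x hx
    obtain ⟨a, ha, hp⟩ := decomp (I := M) x
    refine ⟨a, ha, x - a, Submodule.sub_mem _ hx (hM1 ha), by abel, fun m hm => ?_⟩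
    rw [ad55_apply, sub_eq_zero]
    exact D.perp_comm55 hM1 hM0 (Submodule.sub_mem _ hx (hM1 ha)) hp hm
  have hab : ∀ x ∈ Ld L h 1, ∀ y ∈ Ld L h 1, ad55 x y = 0 := fun x hx y hy => by
    rw [ad55_apply, sub_eq_zero]
    exact D.one_comm55 h2 hx hy
  -- the action of the elements of degree one
  have hone : ∀ x ∈ Ld L h 1, ∀ y ∈ I55 M, ad55 x y ∈ I55 M := by
    intro x hx
    have h3 : I55 M ≤ (I55 M).comap (ad55 x) := by
      apply I55_ind
      · intro m hm
        rw [Submodule.mem_comap, hab x hx m (hM1 hm)]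
        exact zero_mem _
      · intro m hm m' hm'
        obtain ⟨a, ha, b, hb, rfl, hc⟩ := hsplit x hx
        rw [Submodule.mem_comap]
        have e1 : ad55 (a + b) (m * m'ᴴ - m'ᴴ * m) = -(ad55 (ad55 m m'ᴴ) a) := by
          have e2 : ad55 (a + b) (m * m'ᴴ - m'ᴴ * m) = ad55 a (ad55 m m'ᴴ) + ad55 b (ad55 m m'ᴴ) := by
            simp only [ad55_apply]
            noncomm_ring
          rw [e2, ad55_jac b, hab b hb m (hM1 hm), hc m' hm', map_zero, ad55_swap a]
          have e3 : ad55 (0 : Matrix n n ℂ) m'ᴴ = 0 := by simp [ad55_apply]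
          rw [e3]
          simp
        rw [e1]
        apply neg_mem
        apply I55_M
        exact hM0 _ (D.br_zero55 (hM1 hm) (hM1 hm')) _ ha
      · intro m hm
        obtain ⟨a, ha, b, hb, rfl, hc⟩ := hsplit x hx
        rw [Submodule.mem_comap]
        have e2 : ad55 (a + b) mᴴ = ad55 a mᴴ + ad55 b mᴴ := by
          simp only [ad55_apply]
          noncomm_ring
        rw [e2, hc m hm, add_zero]
        exact I55_N ha hm
    exact fun y hy => h3 hy
  have hzero : ∀ z ∈ Ld L h 0, ∀ y ∈ I55 M, ad55 z y ∈ I55 M := by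
    intro z hz
    have hS : ∀ m ∈ M, ad55 z mᴴ = -(ad55 zᴴ m)ᴴ := by
      intro m hm
      rw [ad55_star, conjTranspose_conjTranspose, neg_neg]
    have h3 : I55 M ≤ (I55 M).comap (ad55 z) := by
      apply I55_ind
      · intro m hm
        exact I55_M (hM0 z hz m hm)
      · intro m hm m' hm'
        rw [Submodule.mem_comap]
        change ad55 z (ad55 m m'ᴴ) ∈ _
        rw [ad55_jac]
        apply add_mem
        · exact I55_N (hM0 z hz m hm) hm'
        · rw [hS m' hm', map_neg]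
          exact neg_mem (I55_N hm (hM0 _ (D.star_zero55 hz) m' hm'))
      · intro m hm
        rw [Submodule.mem_comap, hS m hm]
        exact neg_mem (I55_S (hM0 _ (D.star_zero55 hz) m hm))
    exact fun y hy => h3 hy
  have hmone : ∀ x ∈ Ld L h (-1), ∀ y ∈ I55 M, ad55 x y ∈ I55 M := by
    intro x hx y hy
    have h3 := I55_star (neg_mem (hone _ (D.star_mone55 hx) _ (I55_star hy)))
    have h4 := ad55_star xᴴ yᴴ
    rw [conjTranspose_conjTranspose, conjTranspose_conjTranspose] at h4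
    rw [conjTranspose_neg, h4, neg_neg] at h3
    exact h3
  -- the ideal
  have hle : I55 M ≤ L := by
    apply I55_ind
    · exact fun m hm => (hM1 hm).1
    · exact fun m hm m' hm' => (D.br_zero55 (hM1 hm) (hM1 hm')).1
    · exact fun m hm => D.st _ (hM1 hm).1
  have hid : ∀ X ∈ L, ∀ Y ∈ I55 M, X * Y - Y * X ∈ I55 M := by
    intro X hX Y hY
    obtain ⟨a, ha, b, hb, c, hc, d, hd, f, hf, rfl⟩ := D.five27 T hX
    rw [h2, Submodule.mem_bot] at ha
    rw [D.ldm2_55 h2, Submodule.mem_bot] at hf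
    subst ha hf
    have e1 : (0 + b + c + d + 0) * Y - Y * (0 + b + c + d + 0) = ad55 b Y + ad55 c Y + ad55 d Y := by
      simp only [ad55_apply]
      noncomm_ring
    rw [e1]
    exact add_mem (add_mem (hone b hb Y hY) (hzero c hc Y hY)) (hmone d hd Y hY)
  have hIL : I55 M = L := by
    rcases hsmp (I55 M) hle hid with h3 | h3
    · exfalso
      apply hne
      rw [eq_bot_iff, ← h3]
      exact fun m hm => I55_M hm
    · exact h3
  apply le_antisymm hM1
  intro x hx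
  have h3 : x ∈ I55 M := by rw [hIL]; exact hx.1
  rw [I55, Submodule.mem_sup] at h3
  obtain ⟨y, hy, c, hc, h4⟩ := h3
  rw [Submodule.mem_sup] at hy
  obtain ⟨a, ha, b, hb, h5⟩ := hy
  have hb0 : b ∈ Ld L h 0 := by
    have h6 : Submodule.span ℂ {z | ∃ m ∈ M, ∃ m' ∈ M, z = m * m'ᴴ - m'ᴴ * m} ≤ Ld L h 0 := by
      rw [Submodule.span_le]
      rintro _ ⟨m, hm, m', hm', rfl⟩
      exact D.br_zero55 (hM1 hm) (hM1 hm')
    exact h6 hb
  have hcm : c ∈ Ld L h (-1) := by
    have h6 : Submodule.span ℂ {z | ∃ m ∈ M, z = mᴴ} ≤ Ld L h (-1) := by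
      rw [Submodule.span_le]
      rintro _ ⟨m, hm, rfl⟩
      exact D.star_one55 (hM1 hm)
    exact h6 hc
  have e0 : h * (x - a) - (x - a) * h = x - a := by
    have := (Submodule.sub_mem _ hx (hM1 ha)).2
    rw [this]
    norm_num
  have e1 : x - a = b + c := by rw [← h4, ← h5]; abel
  have e2 : h * (b + c) - (b + c) * h = -c := by
    have h6 := hb0.2
    have h7 := hcm.2
    have h8 : h * (b + c) - (b + c) * h = (h * b - b * h) + (h * c - c * h) := by noncomm_ring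
    rw [h8, h6, h7]
    norm_num
  have e3 : h * c - c * h = -c := by rw [hcm.2]; norm_num
  rw [e1, e2] at e0
  -- `-c = b + c`
  have e4 : c = 0 := by
    have h6 : h * (-c) - (-c) * h = c := by
      have : h * (-c) - (-c) * h = -(h * c - c * h) := by noncomm_ring
      rw [this, e3, neg_neg]
    rw [e0, e2] at h6
    have h7 : (2 : ℂ) • c = 0 := by
      rw [two_smul]
      nth_rw 1 [← h6]
      abel
    exact (smul_eq_zero.1 h7).resolve_left (by norm_num)
  have e5 : b = 0 := by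
    rw [e4] at e0
    simpa using e0.symm
  have e6 : x = a := by
    have : x - a = 0 := by rw [e1, e4, e5, add_zero]
    exact sub_eq_zero.1 this
  rw [e6]
  exact ha

end Dat

end MH
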