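import Pool.Agent.Helper55.UG.Small

/-!
Project UG (MP_b8862a_ag): the multiplicity of the eigenvalue `0`, continued.
-/

set_option linter.unusedSectionVars false

open Matrix

namespace MH

variable {n : Type*} [Fintype n] [DecidableEq n]
variable {h : Matrix n n ℂ} {E : ℝ → Matrix n n ℂ} {Λ : Finset ℝ}
variable {τ : Matrix n n ℂ →ₗ[ℂ] Matrix n n ℂ} {L : Submodule ℂ (Matrix n n ℂ)}

/-- an orthonormal basis of the elements of degree one -/
structure Ob55 (L : Submodule ℂ (Matrix n n ℂ)) (h : Matrix n n ℂ) {d : ℕ} (u : Fin d → Matrix n n ℂ) : Prop where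
  mem : ∀ i, u i ∈ Ld L h 1
  orth : ∀ i j, ((u i)ᴴ * u j).trace = if i = j then 1 else 0
  span : ∀ m ∈ Ld L h 1, m = ∑ i, ((u i)ᴴ * m).trace • u i

/-- `∑ u uᴴ` -/
def SA55 {d : ℕ} (u : Fin d → Matrix n n ℂ) : Matrix n n ℂ := ∑ i, u i * (u i)ᴴ

/-- `∑ uᴴ u` -/
def SB55 {d : ℕ} (u : Fin d → Matrix n n ℂ) : Matrix n n ℂ := ∑ i, (u i)ᴴ * u i

section
variable {d : ℕ} {u : Fin d → Matrix n n ℂ} (D : Dat τ L h E Λ) (T : Three27 E) (U : Ob55 L h u)

lemma SA_star55 : (SA55 u)ᴴ = SA55 u := by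
  rw [SA55, conjTranspose_sum]
  refine Finset.sum_congr rfl fun i _ => ?_
  rw [conjTranspose_mul, conjTranspose_conjTranspose]

lemma SB_star55 : (SB55 u)ᴴ = SB55 u := by
  rw [SB55, conjTranspose_sum]
  refine Finset.sum_congr rfl fun i _ => ?_
  rw [conjTranspose_mul, conjTranspose_conjTranspose]

include D U

lemma tau_SA55 : τ (SA55 u) = SB55 u := by
  rw [SA55, SB55, map_sum]
  refine Finset.sum_congr rfl fun i _ => ?_
  rw [D.inv.mul, D.inv.star, D.sk _ (U.mem i).1, conjTranspose_neg, neg_mul_neg]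

lemma tau_SB55 : τ (SB55 u) = SA55 u := by
  rw [← tau_SA55 D U, D.inv.inv]

/-- the coefficients of the action of an element of degree zero -/
lemma act55 {z : Matrix n n ℂ} (hz : z ∈ Ld L h 0) :
    (∀ i, z * u i - u i * z = ∑ j, ((u j)ᴴ * (z * u i - u i * z)).trace • u j) ∧
    ∀ i, z * (u i)ᴴ - (u i)ᴴ * z = -∑ j, ((u i)ᴴ * (z * u j - u j * z)).trace • (u j)ᴴ := by
  refine ⟨fun i => U.span _ (D.br_one55 hz (U.mem i)), fun i => ?_⟩
  have h1 := U.span _ (D.br_one55 (D.star_zero55 hz) (U.mem i))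
  have h2 := congrArg conjTranspose h1
  rw [conjTranspose_sub, conjTranspose_mul, conjTranspose_mul, conjTranspose_conjTranspose, conjTranspose_sum] at h2
  rw [← neg_sub, h2]
  congr 1
  refine Finset.sum_congr rfl fun j _ => ?_
  rw [conjTranspose_smul]
  congr 1
  rw [← trace_conjTranspose, conjTranspose_mul, conjTranspose_conjTranspose, conjTranspose_sub, conjTranspose_mul,
    conjTranspose_mul, conjTranspose_conjTranspose, sub_mul, mul_sub, trace_sub, trace_sub]
  congr 1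
  · rw [mul_assoc]
  · rw [mul_assoc, trace_mul_comm z, mul_assoc]

/-- `∑ u uᴴ` commutes with the elements of degree zero -/
lemma SA_comm55 {z : Matrix n n ℂ} (hz : z ∈ Ld L h 0) : SA55 u * z = z * SA55 u := by
  obtain ⟨h1, h2⟩ := act55 D U hz
  have h3 : z * SA55 u - SA55 u * z = ∑ i, ((z * u i - u i * z) * (u i)ᴴ + u i * (z * (u i)ᴴ - (u i)ᴴ * z)) := by
    rw [SA55, Finset.mul_sum, Finset.sum_mul, ← Finset.sum_sub_distrib]
    refine Finset.sum_congr rfl fun i _ => ?_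
    noncomm_ring
  have h4 : z * SA55 u - SA55 u * z = 0 := by
    rw [h3, Finset.sum_add_distrib]
    have e1 : ∑ i, (z * u i - u i * z) * (u i)ᴴ =
        ∑ i, ∑ j, ((u j)ᴴ * (z * u i - u i * z)).trace • (u j * (u i)ᴴ) := by
      refine Finset.sum_congr rfl fun i _ => ?_
      conv_lhs => rw [h1 i]
      rw [Finset.sum_mul]
      refine Finset.sum_congr rfl fun j _ => ?_
      rw [smul_mul_assoc]
    have e2 : ∑ i, u i * (z * (u i)ᴴ - (u i)ᴴ * z) =
        -∑ i, ∑ j, ((u i)ᴴ * (z * u j - u j * z)).trace • (u i * (u j)ᴴ) := by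
      rw [← Finset.sum_neg_distrib]
      refine Finset.sum_congr rfl fun i _ => ?_
      rw [h2 i, mul_neg, Finset.mul_sum]
      congr 1
      refine Finset.sum_congr rfl fun j _ => ?_
      rw [mul_smul_comm]
    rw [e1, e2, Finset.sum_comm, add_neg_cancel]
  exact (sub_eq_zero.1 h4).symm

lemma SB_comm55 {z : Matrix n n ℂ} (hz : z ∈ Ld L h 0) : SB55 u * z = z * SB55 u := by
  have h1 := congrArg τ (SA_comm55 D U hz)
  rw [D.inv.mul, D.inv.mul, tau_SA55 D U, D.sk z hz.1, neg_mul, mul_neg] at h1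
  exact (neg_inj.1 h1).symm

omit U in
lemma mulE55 {ν : ℝ} {x : Matrix n n ℂ} (hx : x ∈ Ld L h ν) (μ : ℝ) : x * E μ = E (μ + ν) * x := by
  have h1 := D.Ld_mul_E hx μ
  have h2 := D.Ld_mul_E (D.Ld_star27 hx) (μ + ν)
  have h3 := congrArg conjTranspose h2
  rw [conjTranspose_mul, conjTranspose_mul, conjTranspose_mul, D.spec.star, D.spec.star,
    conjTranspose_conjTranspose, add_neg_cancel_right, ← mul_assoc] at h3
  rw [h3, ← h1]

lemma SA_E55 (μ : ℝ) : SA55 u * E μ = E μ * SA55 u := by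
  rw [SA55, Finset.sum_mul, Finset.mul_sum]
  refine Finset.sum_congr rfl fun i _ => ?_
  have h1 := mulE55 D (D.star_one55 (U.mem i)) μ
  have h2 := mulE55 D (U.mem i) (μ + -1)
  rw [neg_add_cancel_right] at h2
  rw [mul_assoc, h1, ← mul_assoc, h2, mul_assoc]

lemma SB_E55 (μ : ℝ) : SB55 u * E μ = E μ * SB55 u := by
  rw [SB55, Finset.sum_mul, Finset.mul_sum]
  refine Finset.sum_congr rfl fun i _ => ?_
  have h1 := mulE55 D (U.mem i) μ
  have h2 := mulE55 D (D.star_one55 (U.mem i)) (μ + 1)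
  rw [add_neg_cancel_right] at h2
  rw [mul_assoc, h1, ← mul_assoc, h2, mul_assoc]

include T

lemma SA_Em55 : SA55 u * E (-1) = 0 := by
  rw [SA55, Finset.sum_mul]
  refine Finset.sum_eq_zero fun i _ => ?_
  have h1 := mulE55 D (D.star_one55 (U.mem i)) (-1)
  rw [show (-1 : ℝ) + -1 = -2 by norm_num, T (-2) (by norm_num) (by norm_num) (by norm_num), zero_mul] at h1
  rw [mul_assoc, h1, mul_zero]

lemma SB_E155 : SB55 u * E 1 = 0 := by
  rw [SB55, Finset.sum_mul]
  refine Finset.sum_eq_zero fun i _ => ?_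
  have h1 := mulE55 D (U.mem i) 1
  rw [show (1 : ℝ) + 1 = 2 by norm_num, T 2 (by norm_num) (by norm_num) (by norm_num), zero_mul] at h1
  rw [mul_assoc, h1, mul_zero]

omit U in
lemma top27_55 : ∀ μ, E μ ≠ 0 → μ ≤ (1 : ℝ) := by
  intro μ hμ
  by_contra h1
  push Not at h1
  apply hμ
  exact T μ (by linarith) (by linarith) (by linarith)

omit U in
lemma h_eq55 : h = E 1 - E (-1) := by
  have h1 : h = h * (E 1 + E 0 + E (-1)) := by rw [D.sum327 T, mul_one]
  rw [h1, mul_add, mul_add, D.spec.h_mul, D.spec.h_mul, D.spec.h_mul]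
  norm_num
  abel

/-- `∑ u uᴴ` is a scalar on the top eigenspace -/
lemma kap55 : ∃ κ : ℂ, SA55 u * E 1 = κ • E 1 ∧ SB55 u * E (-1) = κ • E (-1) := by
  have hEE : E 1 * E 1 = E 1 := by rw [D.spec.mul, if_pos rfl]
  obtain ⟨κ, hκ⟩ := D.top_scalar98 (t := 1) (top27_55 D T) (T := SA55 u * E 1)
    (by rw [SA_E55 D U, ← mul_assoc, hEE]) (by rw [mul_assoc, hEE]) (by
      intro x hx
      rw [mul_assoc, D.Ld_comm_E98 hx, ← mul_assoc, SA_comm55 D U hx, mul_assoc])
  refine ⟨κ, hκ, ?_⟩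
  have h1 := congrArg τ hκ
  rw [D.inv.mul, D.tauE, tau_SA55 D U, map_smul, D.tauE, ← SB_E55 D U] at h1
  exact h1

/-- the trace of the scalar -/
lemma kap_tr55 {κ : ℂ} (h1 : SA55 u * E 1 = κ • E 1) (h2 : SB55 u * E (-1) = κ • E (-1)) :
    2 * κ * (E 1).rank = d ∧ (SB55 u * E 0).trace = κ * (E 1).rank := by
  have hEE : ∀ μ, E μ * E μ = E μ := fun μ => by rw [D.spec.mul, if_pos rfl]
  have e1 : (SA55 u).trace = d := by
    rw [SA55, trace_sum]
    have : ∀ i, (u i * (u i)ᴴ).trace = 1 := fun i => by rw [trace_mul_comm, U.orth, if_pos rfl]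
    simp [this]
  have e2 : (SA55 u * E 1).trace = κ * (E 1).rank := by
    rw [h1, trace_smul, smul_eq_mul, rank_eq_trace (hEE 1)]
  have e3 : (SA55 u * E 0).trace = (SB55 u * E (-1)).trace := by
    rw [SA55, SB55, Finset.sum_mul, Finset.sum_mul, trace_sum, trace_sum]
    refine Finset.sum_congr rfl fun i _ => ?_
    have h3 := mulE55 D (U.mem i) (-1)
    rw [neg_add_cancel] at h3
    rw [mul_assoc ((u i)ᴴ), h3, trace_mul_comm ((u i)ᴴ), mul_assoc (E 0), trace_mul_comm (E 0)]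
  have e4 : (SB55 u * E 0).trace = (SA55 u * E 1).trace := by
    rw [SA55, SB55, Finset.sum_mul, Finset.sum_mul, trace_sum, trace_sum]
    refine Finset.sum_congr rfl fun i _ => ?_
    have h3 := mulE55 D (U.mem i) 0
    rw [zero_add] at h3
    rw [mul_assoc ((u i)ᴴ), h3, trace_mul_comm ((u i)ᴴ), mul_assoc (E 1), trace_mul_comm (E 1)]
  have e5 : (SB55 u * E (-1)).trace = κ * (E 1).rank := by
    rw [h2, trace_smul, smul_eq_mul, ← D.tauE, D.inv.tr, rank_eq_trace (hEE 1)]
  refine ⟨?_, by rw [e4, e2]⟩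
  have e6 : SA55 u = SA55 u * E 1 + SA55 u * E 0 + SA55 u * E (-1) := by
    rw [← mul_add, ← mul_add, D.sum327 T, mul_one]
  rw [← e1, e6, trace_add, trace_add, e2, e3, e5, SA_Em55 D T U, trace_zero]
  ring

/-- The difference of the two Casimir elements is a multiple of `h`. -/
theorem diff55 (hsmp : ∀ K ≤ L, (∀ X ∈ L, ∀ Y ∈ K, X * Y - Y * X ∈ K) → K = ⊥ ∨ K = L) (hL2 : Ld L h 2 = ⊥)
    (hd : Ld L h 1 ≠ ⊥) (hE1 : E 1 ≠ 0) {κ : ℂ} (h1 : SA55 u * E 1 = κ • E 1) (h2 : SB55 u * E (-1) = κ • E (-1)) :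
    SA55 u - SB55 u = κ • h := by
  have hEE : ∀ μ, E μ * E μ = E μ := fun μ => by rw [D.spec.mul, if_pos rfl]
  have hκ : starRingEnd ℂ κ = κ := by
    have e1 := congrArg conjTranspose h1
    rw [conjTranspose_mul, SA_star55, D.spec.star, ← SA_E55 D U, h1, conjTranspose_smul, D.spec.star] at e1
    have e2 : (κ - star κ) • E 1 = 0 := by rw [sub_smul, e1, sub_self]
    exact (sub_eq_zero.1 ((smul_eq_zero.1 e2).resolve_right hE1)).symm
  have hK0 : SA55 u - SB55 u ∈ Ld L h 0 := by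
    rw [SA55, SB55, ← Finset.sum_sub_distrib]
    exact Submodule.sum_mem _ fun i _ => D.br_zero55 (U.mem i) (U.mem i)
  have hh0 : h ∈ Ld L h 0 := ⟨D.mem, by simp⟩
  obtain ⟨Z, hZ⟩ : ∃ Z, Z = SA55 u - SB55 u - κ • h := ⟨_, rfl⟩
  have hZ0 : Z ∈ Ld L h 0 := by
    rw [hZ]
    exact Submodule.sub_mem _ hK0 (Submodule.smul_mem _ _ hh0)
  have hZs : Zᴴ = Z := by
    rw [hZ, conjTranspose_sub, conjTranspose_sub, SA_star55, SB_star55, conjTranspose_smul, D.spec.hh]
    congr 2
  have hZc : ∀ z ∈ Ld L h 0, Z * z = z * Z := by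
    intro z hz
    have e1 : h * z = z * h := by
      have := hz.2
      rw [Complex.ofReal_zero, zero_smul] at this
      exact sub_eq_zero.1 this
    rw [hZ, sub_mul, mul_sub, sub_mul, mul_sub, SA_comm55 D U hz, SB_comm55 D U hz, smul_mul_assoc, mul_smul_comm, e1]
  have hZ1 : Z * E 1 = 0 := by
    rw [hZ, sub_mul, sub_mul, h1, SB_E155 D T U, smul_mul_assoc, D.spec.h_mul]
    simp
  have hZm : Z * E (-1) = 0 := by
    rw [hZ, sub_mul, sub_mul, h2, SA_Em55 D T U, smul_mul_assoc, D.spec.h_mul]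
    simp
  -- an eigenvalue on the elements of degree one
  have hst : ∀ x ∈ Ld L h 1, ad55 Z x ∈ Ld L h 1 := fun x hx => D.br_one55 hZ0 hx
  have : Nontrivial (Ld L h 1) := by
    rw [Submodule.nontrivial_iff_ne_bot]
    exact hd
  obtain ⟨ζ, hζ⟩ := Module.End.exists_eigenvalue ((ad55 Z).restrict hst)
  obtain ⟨v, hv⟩ := hζ.exists_hasEigenvector
  have hv1 : ad55 Z (v : Matrix n n ℂ) = ζ • (v : Matrix n n ℂ) := by
    have h3 := hv.apply_eq_smul
    have h4 := congrArg Subtype.val h3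
    simpa using h4
  obtain ⟨M, hM⟩ : ∃ M : Submodule ℂ (Matrix n n ℂ), M = Ld L h 1 ⊓ Module.End.eigenspace (ad55 Z) ζ := ⟨_, rfl⟩
  have hMe : M = Ld L h 1 := by
    apply D.irr_one55 T hsmp hL2
    · rw [hM]; exact inf_le_left
    · intro z hz m hm
      rw [hM, Submodule.mem_inf, Module.End.mem_eigenspace_iff] at hm ⊢
      refine ⟨D.br_one55 hz hm.1, ?_⟩
      change ad55 Z (ad55 z m) = ζ • ad55 z m
      rw [ad55_jac, hm.2, map_smul]
      have e1 : ad55 Z z = 0 := by rw [ad55_apply, hZc z hz, sub_self]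
      rw [e1]
      simp [ad55_apply]
    · intro h3
      apply hv.2
      have h4 : (v : Matrix n n ℂ) ∈ M := by
        rw [hM, Submodule.mem_inf, Module.End.mem_eigenspace_iff]
        exact ⟨v.2, hv1⟩
      rw [h3, Submodule.mem_bot] at h4
      exact Subtype.ext h4
  have hall : ∀ x ∈ Ld L h 1, Z * x - x * Z = ζ • x := by
    intro x hx
    rw [← hMe, hM, Submodule.mem_inf, Module.End.mem_eigenspace_iff] at hx
    exact hx.2
  have hζr : star ζ = ζ := by
    obtain ⟨x, hx, hx0⟩ := Submodule.exists_mem_ne_zero_of_ne_bot hd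
    have e1 := hall x hx
    have e2 : (xᴴ * (Z * x - x * Z)).trace = ζ * (xᴴ * x).trace := by
      rw [e1, mul_smul_comm, trace_smul, smul_eq_mul]
    have e3 : star (xᴴ * (Z * x - x * Z)).trace = (xᴴ * (Z * x - x * Z)).trace := by
      rw [← trace_conjTranspose, conjTranspose_mul, conjTranspose_conjTranspose, conjTranspose_sub,
        conjTranspose_mul, conjTranspose_mul, hZs, sub_mul, mul_sub, trace_sub, trace_sub]
      congr 1
      · rw [mul_assoc]
      · rw [mul_assoc, trace_mul_comm Z, mul_assoc]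
    have e4 : star (xᴴ * x).trace = (xᴴ * x).trace := by
      rw [← trace_conjTranspose, conjTranspose_mul, conjTranspose_conjTranspose]
    rw [e2, star_mul', e4] at e3
    have e5 : (xᴴ * x).trace ≠ 0 := by
      intro h3
      have := trace_pos hx0
      rw [h3] at this
      simp at this
    exact mul_right_cancel₀ e5 e3
  have hallm : ∀ x ∈ Ld L h (-1), Z * x - x * Z = -(ζ • x) := by
    intro x hx
    have e1 := congrArg conjTranspose (hall _ (D.star_mone55 hx))
    rw [conjTranspose_sub, conjTranspose_mul, conjTranspose_mul, conjTranspose_conjTranspose, hZs,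
      conjTranspose_smul, conjTranspose_conjTranspose, hζr] at e1
    rw [← e1]
    abel
  obtain ⟨c, hc⟩ := D.irr (Z - ζ • h) (by
    intro x hx
    obtain ⟨a, ha, b, hb, c, hc, e, he, f, hf, rfl⟩ := D.five27 T hx
    rw [hL2, Submodule.mem_bot] at ha
    rw [D.ldm2_55 hL2, Submodule.mem_bot] at hf
    subst ha hf
    have k1 := hall b hb
    have k2 := hb.2
    have k3 := hZc c hc
    have k4 := hc.2
    have k5 := hallm e he
    have k6 := he.2
    have e1 : ∀ x, (Z - ζ • h) * x - x * (Z - ζ • h) = (Z * x - x * Z) - ζ • (h * x - x * h) := by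
      intro x
      rw [sub_mul, mul_sub, smul_mul_assoc, mul_smul_comm, smul_sub]
      abel
    have q1 : (Z - ζ • h) * b = b * (Z - ζ • h) := by
      apply sub_eq_zero.1
      rw [e1, k1, k2]
      simp
    have q2 : (Z - ζ • h) * c = c * (Z - ζ • h) := by
      apply sub_eq_zero.1
      rw [e1, k3, k4]
      simp
    have q3 : (Z - ζ • h) * e = e * (Z - ζ • h) := by
      apply sub_eq_zero.1
      rw [e1, k5, k6]
      simp
    rw [zero_add, add_zero, mul_add, mul_add, add_mul, add_mul, q1, q2, q3])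
  have f1 : (Z - ζ • h) * E 1 = c • E 1 := by rw [hc, smul_mul_assoc, one_mul]
  have f2 : (Z - ζ • h) * E (-1) = c • E (-1) := by rw [hc, smul_mul_assoc, one_mul]
  rw [sub_mul, hZ1, smul_mul_assoc, D.spec.h_mul] at f1
  rw [sub_mul, hZm, smul_mul_assoc, D.spec.h_mul] at f2
  have hEm : E (-1) ≠ 0 := by
    intro h0
    apply hE1
    have := congrArg τ h0
    rwa [D.tauE, neg_neg, map_zero] at this
  have f3 : (c + ζ) • E 1 = 0 := by
    rw [add_smul, ← f1]
    simp
  have f4 : (c - ζ) • E (-1) = 0 := by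
    rw [sub_smul, ← f2]
    simp
  have g1 := (smul_eq_zero.1 f3).resolve_right hE1
  have g2 := (smul_eq_zero.1 f4).resolve_right hEm
  have g3 : c = 0 := by linear_combination (g1 + g2) / 2
  have g4 : ζ = 0 := by linear_combination (g1 - g2) / 2
  rw [g3, g4, zero_smul, zero_smul, sub_zero] at hc
  rw [hZ] at hc
  exact sub_eq_zero.1 hc

end

end MH
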