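import Pool.Agent.Helper55.UG.Small2

/-!
Project UG (MP_b8862a_ag): the multiplicity of the eigenvalue `0`, the inequality.
-/

set_option linter.unusedSectionVars false

open Matrix

namespace MH

variable {n : Type*} [Fintype n] [DecidableEq n]
variable {h : Matrix n n ℂ} {E : ℝ → Matrix n n ℂ} {Λ : Finset ℝ}
variable {τ : Matrix n n ℂ →ₗ[ℂ] Matrix n n ℂ} {L : Submodule ℂ (Matrix n n ℂ)}

section
variable {d : ℕ} {u : Fin d → Matrix n n ℂ} (D : Dat τ L h E Λ) (T : Three27 E) (U : Ob55 L h u)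
include D U T

/-- the sum of the squares of the commutators on the middle eigenspace -/
theorem comm_sum55 (hL2 : Ld L h 2 = ⊥) {κ : ℂ} (h1 : SA55 u * E 1 = κ • E 1)
    (h2 : SB55 u * E (-1) = κ • E (-1)) (h3 : SA55 u * E 0 = SB55 u * E 0) :
    ∑ i, ∑ j, (((u j)ᴴ * u i - u i * (u j)ᴴ) * E 0)ᴴ * (((u j)ᴴ * u i - u i * (u j)ᴴ) * E 0) =
      (2 * κ) • (SB55 u * E 0) - (2 : ℂ) • (SB55 u * E 0 * (SB55 u * E 0)) := by
  have hEE : E 0 * E 0 = E 0 := D.E00
  have hc : ∀ i j, u i * u j = u j * u i := fun i j => D.one_comm55 hL2 (U.mem i) (U.mem j)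
  have hcs : ∀ i j, (u i)ᴴ * (u j)ᴴ = (u j)ᴴ * (u i)ᴴ := fun i j => by
    rw [← conjTranspose_mul, ← conjTranspose_mul, hc]
  have e1 : ∀ i, u i * E 0 = E 1 * u i := fun i => by
    have := mulE55 D (U.mem i) 0
    rwa [zero_add] at this
  have e2 : ∀ i, (u i)ᴴ * E 0 = E (-1) * (u i)ᴴ := fun i => by
    have := mulE55 D (D.star_one55 (U.mem i)) 0
    rwa [zero_add] at this
  have hcB : E 0 * SB55 u * E 0 = SB55 u * E 0 := by rw [← SB_E55 D U, mul_assoc, hEE]
  have hcA : E 0 * SA55 u * E 0 = SB55 u * E 0 := by rw [← SA_E55 D U, mul_assoc, hEE, h3]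
  -- the four terms
  have t1 : ∑ i, ∑ j, E 0 * (u i)ᴴ * (u j * (u j)ᴴ) * (u i * E 0) = κ • (SB55 u * E 0) := by
    have k1 : ∀ i, ∑ j, E 0 * (u i)ᴴ * (u j * (u j)ᴴ) * (u i * E 0) = κ • (E 0 * ((u i)ᴴ * u i) * E 0) := by
      intro i
      rw [← Finset.sum_mul, ← Finset.mul_sum]
      change E 0 * (u i)ᴴ * SA55 u * (u i * E 0) = _
      rw [e1, mul_assoc, ← mul_assoc (SA55 u), h1, smul_mul_assoc, ← e1, mul_smul_comm]
      congr 1
      simp only [mul_assoc]
    rw [Finset.sum_congr rfl fun i _ => k1 i, ← Finset.smul_sum, ← Finset.sum_mul, ← Finset.mul_sum]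
    change κ • (E 0 * SB55 u * E 0) = _
    rw [hcB]
  have t4 : ∑ i, ∑ j, E 0 * u j * ((u i)ᴴ * u i) * ((u j)ᴴ * E 0) = κ • (SB55 u * E 0) := by
    rw [Finset.sum_comm]
    have k1 : ∀ j, ∑ i, E 0 * u j * ((u i)ᴴ * u i) * ((u j)ᴴ * E 0) = κ • (E 0 * (u j * (u j)ᴴ) * E 0) := by
      intro j
      rw [← Finset.sum_mul, ← Finset.mul_sum]
      change E 0 * u j * SB55 u * ((u j)ᴴ * E 0) = _
      rw [e2, mul_assoc, ← mul_assoc (SB55 u), h2, smul_mul_assoc, ← e2, mul_smul_comm]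
      congr 1
      simp only [mul_assoc]
    rw [Finset.sum_congr rfl fun i _ => k1 i, ← Finset.smul_sum, ← Finset.sum_mul, ← Finset.mul_sum]
    change κ • (E 0 * SA55 u * E 0) = _
    rw [hcA]
  have t2 : ∑ i, ∑ j, E 0 * ((u i)ᴴ * u i) * (u j * (u j)ᴴ) * E 0 = SB55 u * E 0 * (SB55 u * E 0) := by
    have k1 : ∀ i, ∑ j, E 0 * ((u i)ᴴ * u i) * (u j * (u j)ᴴ) * E 0 = E 0 * ((u i)ᴴ * u i) * (SA55 u * E 0) := by
      intro i
      rw [← Finset.sum_mul, ← Finset.mul_sum, mul_assoc]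
      rfl
    rw [Finset.sum_congr rfl fun i _ => k1 i, ← Finset.sum_mul, ← Finset.mul_sum]
    change E 0 * SB55 u * (SA55 u * E 0) = _
    rw [← SB_E55 D U, h3]
  have t3 : ∑ i, ∑ j, E 0 * (u j * (u j)ᴴ) * ((u i)ᴴ * u i) * E 0 = SB55 u * E 0 * (SB55 u * E 0) := by
    rw [Finset.sum_comm]
    have k1 : ∀ j, ∑ i, E 0 * (u j * (u j)ᴴ) * ((u i)ᴴ * u i) * E 0 = E 0 * (u j * (u j)ᴴ) * (SB55 u * E 0) := by
      intro j
      rw [← Finset.sum_mul, ← Finset.mul_sum, mul_assoc]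
      rfl
    rw [Finset.sum_congr rfl fun i _ => k1 i, ← Finset.sum_mul, ← Finset.mul_sum]
    change E 0 * SA55 u * (SB55 u * E 0) = _
    rw [← SA_E55 D U, h3]
  have hterm : ∀ i j, (((u j)ᴴ * u i - u i * (u j)ᴴ) * E 0)ᴴ * (((u j)ᴴ * u i - u i * (u j)ᴴ) * E 0) =
      (E 0 * (u i)ᴴ * (u j * (u j)ᴴ) * (u i * E 0) + E 0 * u j * ((u i)ᴴ * u i) * ((u j)ᴴ * E 0)) -
      (E 0 * ((u i)ᴴ * u i) * (u j * (u j)ᴴ) * E 0 + E 0 * (u j * (u j)ᴴ) * ((u i)ᴴ * u i) * E 0) := by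
    intro i j
    rw [conjTranspose_mul, conjTranspose_sub, conjTranspose_mul, conjTranspose_mul, conjTranspose_conjTranspose,
      D.spec.star]
    have k2 : E 0 * ((u i)ᴴ * u i) * (u j * (u j)ᴴ) * E 0 = E 0 * (u i)ᴴ * (u j * u i) * (u j)ᴴ * E 0 := by
      rw [← hc]
      simp only [mul_assoc]
    have k3 : E 0 * (u j * (u j)ᴴ) * ((u i)ᴴ * u i) * E 0 = E 0 * u j * ((u i)ᴴ * (u j)ᴴ) * u i * E 0 := by
      rw [hcs i j]
      simp only [mul_assoc]
    rw [k2, k3]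
    noncomm_ring
  rw [Finset.sum_congr rfl fun i _ => Finset.sum_congr rfl fun j _ => hterm i j]
  simp only [Finset.sum_sub_distrib, Finset.sum_add_distrib]
  rw [t1, t2, t3, t4]
  module

end

namespace Dat

variable (D : Dat τ L h E Λ) (T : Three27 E)
include D T

/-- **The middle eigenspace is large.** If `L` is simple and has no elements of degree two, then the multiplicity
of the eigenvalue `0` is at least the multiplicity of the eigenvalue `1`. -/
theorem small55 (hsmp : ∀ K ≤ L, (∀ X ∈ L, ∀ Y ∈ K, X * Y - Y * X ∈ K) → K = ⊥ ∨ K = L) (hL2 : Ld L h 2 = ⊥) :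
    (E 1).rank ≤ (E 0).rank := by
  by_cases hE1 : E 1 = 0
  · rw [hE1, Matrix.rank_zero]
    exact Nat.zero_le _
  have hEE : ∀ μ, E μ * E μ = E μ := fun μ => by rw [D.spec.mul, if_pos rfl]
  have hs : (0 : ℝ) < (E 1).rank := by
    have : (E 1).rank ≠ 0 := by
      intro h0
      apply hE1
      apply eq_zero_of_trace
      rw [D.spec.star, hEE, ← rank_eq_trace (hEE 1), h0]
      simp
    exact_mod_cast Nat.pos_of_ne_zero this
  have hEm : E (-1) ≠ 0 := by
    intro h0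
    apply hE1
    have := congrArg τ h0
    rwa [D.tauE, neg_neg, map_zero] at this
  have hd : Ld L h 1 ≠ ⊥ := by
    intro hL1
    have hLm : Ld L h (-1) = ⊥ := by
      rw [eq_bot_iff]
      intro x hx
      have h3 := D.star_mone55 hx
      rw [hL1, Submodule.mem_bot] at h3
      rw [Submodule.mem_bot, ← conjTranspose_conjTranspose x, h3, conjTranspose_zero]
    have hall : ∀ x ∈ L, h * x = x * h := by
      intro x hx
      obtain ⟨a, ha, b, hb, c, hc, e, he, f, hf, rfl⟩ := D.five27 T hx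
      rw [hL2, Submodule.mem_bot] at ha
      rw [D.ldm2_55 hL2, Submodule.mem_bot] at hf
      rw [hL1, Submodule.mem_bot] at hb
      rw [hLm, Submodule.mem_bot] at he
      subst ha hf hb he
      have := hc.2
      rw [Complex.ofReal_zero, zero_smul] at this
      rw [zero_add, zero_add, add_zero, add_zero]
      exact sub_eq_zero.1 this
    obtain ⟨c, hc⟩ := D.irr h hall
    have f1 : h * E 1 = c • E 1 := by rw [hc, smul_mul_assoc, one_mul]
    have f2 : h * E (-1) = c • E (-1) := by rw [hc, smul_mul_assoc, one_mul]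
    rw [D.spec.h_mul] at f1 f2
    have g1 : (c - 1) • E 1 = 0 := by rw [sub_smul, ← f1]; simp
    have g2 : (c + 1) • E (-1) = 0 := by rw [add_smul, ← f2]; simp
    have k1 := (smul_eq_zero.1 g1).resolve_right hE1
    have k2 := (smul_eq_zero.1 g2).resolve_right hEm
    have : (2 : ℂ) = 0 := by linear_combination k2 - k1
    norm_num at this
  obtain ⟨u, hu1, hu2, hu3⟩ := exists_onb98 (Ld L h 1)
  have U : Ob55 L h u := ⟨hu1, hu2, hu3⟩
  obtain ⟨κ, h1, h2⟩ := kap55 D T U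
  have hdiff := diff55 D T U hsmp hL2 hd hE1 h1 h2
  have h3 : SA55 u * E 0 = SB55 u * E 0 := by
    have e1 : (SA55 u - SB55 u) * E 0 = 0 := by
      rw [hdiff, smul_mul_assoc, D.spec.h_mul]
      simp
    rw [sub_mul] at e1
    exact sub_eq_zero.1 e1
  obtain ⟨k1, k2⟩ := kap_tr55 D T U h1 h2
  obtain ⟨dd, hdd⟩ : ∃ dd : ℕ, dd = Module.finrank ℂ (Ld L h 1) := ⟨_, rfl⟩
  have hdpos : 0 < Module.finrank ℂ (Ld L h 1) := by
    rw [Nat.pos_iff_ne_zero]
    intro h0
    exact hd (Submodule.finrank_eq_zero.1 h0)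
  obtain ⟨r, hr, hκ⟩ : ∃ r : ℝ, 0 < r ∧ κ = r := by
    refine ⟨Module.finrank ℂ (Ld L h 1) / (2 * (E 1).rank), by positivity, ?_⟩
    have h0 : ((E 1).rank : ℂ) ≠ 0 := by
      exact_mod_cast hs.ne'
    push_cast
    rw [eq_div_iff (by simpa using h0)]
    rw [← k1]
    ring
  -- the trace of the sum of squares
  have hsum := comm_sum55 D T U hL2 h1 h2 h3
  have hnn : 0 ≤ ((2 * κ) * (SB55 u * E 0).trace - 2 * (SB55 u * E 0 * (SB55 u * E 0)).trace).re := by
    have e1 := congrArg Matrix.trace hsum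
    rw [trace_sub, trace_smul, trace_smul, smul_eq_mul, smul_eq_mul, trace_sum] at e1
    rw [← e1, Complex.re_sum]
    refine Finset.sum_nonneg fun i _ => ?_
    rw [trace_sum, Complex.re_sum]
    exact Finset.sum_nonneg fun j _ => trace_nonneg _
  obtain ⟨A, hA⟩ : ∃ A, A = SB55 u * E 0 := ⟨_, rfl⟩
  have hAs : Aᴴ = A := by
    rw [hA, conjTranspose_mul, D.spec.star, SB_star55, SB_E55 D U]
  rw [← hA] at hnn k2
  -- Cauchy-Schwarz
  have hCS : ∀ c : ℝ, 0 ≤ (A * A).trace.re - 2 * c * (r * (E 1).rank) + c ^ 2 * (E 0).rank := by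
    intro c
    have e1 := trace_nonneg (A - (c : ℂ) • E 0)
    have hAE : A * E 0 = A := by rw [hA, mul_assoc, hEE]
    have hEA : E 0 * A = A := by
      have := congrArg conjTranspose hAE
      rwa [conjTranspose_mul, hAs, D.spec.star] at this
    have e2 : (A - (c : ℂ) • E 0)ᴴ * (A - (c : ℂ) • E 0) = A * A - (2 * c : ℂ) • A + (c ^ 2 : ℂ) • E 0 := by
      rw [conjTranspose_sub, conjTranspose_smul, hAs, D.spec.star, sub_mul, mul_sub, mul_sub, smul_mul_assoc,
        smul_mul_assoc, mul_smul_comm, mul_smul_comm, hAE, hEA, hEE]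
      have e3 : star (c : ℂ) = c := Complex.conj_ofReal c
      rw [e3]
      module
    rw [e2, trace_add, trace_sub, trace_smul, trace_smul, k2, ← rank_eq_trace (hEE 0), hκ] at e1
    have e4 : ((A * A).trace - (2 * c : ℂ) • ((r : ℂ) * (E 1).rank) + (c ^ 2 : ℂ) • ((E 0).rank : ℂ)).re =
        (A * A).trace.re - 2 * c * (r * (E 1).rank) + c ^ 2 * (E 0).rank := by
      have : ((A * A).trace - (2 * c : ℂ) • ((r : ℂ) * (E 1).rank) + (c ^ 2 : ℂ) • ((E 0).rank : ℂ)) =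
        (A * A).trace + (((-2 * c * (r * (E 1).rank) + c ^ 2 * (E 0).rank : ℝ)) : ℂ) := by
        push_cast
        simp only [smul_eq_mul]
        ring
      rw [this, Complex.add_re, Complex.ofReal_re]
      ring
    rwa [e4] at e1
  have hup : (A * A).trace.re ≤ r ^ 2 * (E 1).rank := by
    rw [k2, hκ] at hnn
    have e1 : (2 * (r : ℂ) * ((r : ℂ) * (E 1).rank) - 2 * (A * A).trace).re =
        2 * r * (r * (E 1).rank) - 2 * (A * A).trace.re := by
      have : (2 * (r : ℂ) * ((r : ℂ) * (E 1).rank) - 2 * (A * A).trace) =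
          ((2 * r * (r * (E 1).rank) : ℝ) : ℂ) - ((2 : ℝ) : ℂ) * (A * A).trace := by
        push_cast
        ring
      rw [this, Complex.sub_re, Complex.ofReal_re, Complex.re_ofReal_mul]
    rw [e1] at hnn
    nlinarith
  -- the end
  have h4 := hCS r
  have h5 : 0 ≤ r ^ 2 * ((E 0).rank - (E 1).rank : ℝ) := by nlinarith
  have h6 : (0 : ℝ) ≤ (E 0).rank - (E 1).rank := by
    by_contra h7
    push Not at h7
    have : r ^ 2 * ((E 0).rank - (E 1).rank : ℝ) < 0 := mul_neg_of_pos_of_neg (by positivity) h7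
    linarith
  exact_mod_cast sub_nonneg.1 h6

end Dat

end MH
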