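import Pool.Agent.Helper55.UG.Contact3
import Pool.Agent.Helper2.PG.DichG

/-!
Project UG (MP_b8862a_ag): the trichotomy with the bounds for the extreme multiplicity.
-/

set_option linter.unusedSectionVars false

open Matrix

namespace MH

variable {n : Type*} [Fintype n] [DecidableEq n]
variable {h : Matrix n n ℂ} {E : ℝ → Matrix n n ℂ} {Λ : Finset ℝ}
variable {τ : Matrix n n ℂ →ₗ[ℂ] Matrix n n ℂ} {L : Submodule ℂ (Matrix n n ℂ)}

theorem rank_zero_iff55 {A : Matrix n n ℂ} : A.rank = 0 ↔ A = 0 := by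
  constructor
  · intro h6
    rw [Matrix.rank, Submodule.finrank_eq_zero, LinearMap.range_eq_bot] at h6
    exact (LinearEquiv.map_eq_zero_iff Matrix.toLin').1 h6
  · rintro rfl
    exact Matrix.rank_zero

namespace Dat

variable (D : Dat τ L h E Λ) {t : ℝ}
include D

/-- the data for the difference of the extreme projections -/
theorem dat3_55 (ht : 0 < t) (hy : E t - E (-t) ∈ L) :
    Dat τ L (E t - E (-t)) (E3 (E t) (E (-t))) {1, -1, 0} := by
  have hEE : ∀ μ, E μ * E μ = E μ := fun μ => by rw [D.spec.mul, if_pos rfl]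
  have e1 : E t * E (-t) = 0 := by rw [D.spec.mul, if_neg (by linarith)]
  have e2 : E (-t) * E t = 0 := by rw [D.spec.mul, if_neg (by linarith)]
  have hSD := sd_three2 (hEE t) (hEE (-t)) e1 e2
  refine ⟨D.inv, ⟨fun μ => ?_, hSD.mul, fun μ hμ => ?_, hSD.sum, hSD.eq⟩, D.sk, D.br, D.st, D.irr, hy⟩
  · unfold E3
    split_ifs
    · exact D.spec.star _
    · exact D.spec.star _
    · rw [conjTranspose_sub, conjTranspose_sub, conjTranspose_one, D.spec.star, D.spec.star]
    · exact conjTranspose_zero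
  · simp only [Finset.mem_insert, Finset.mem_singleton, not_or] at hμ
    exact E3_three _ _ μ hμ.1 hμ.2.2 hμ.2.1

theorem bot_of_top55 (htop : ∀ μ, E μ ≠ 0 → μ ≤ t) : ∀ μ, E μ ≠ 0 → -t ≤ μ := by
  intro μ hμ
  have h1 : E (-μ) ≠ 0 := by
    rw [← D.tauE]
    intro h2
    apply hμ
    rw [← D.inv.inv (E μ), h2, map_zero]
  have := htop _ h1
  linarith

/-- the elements of extreme degree -/
theorem ld3_55 (ht : 0 < t) (htop : ∀ μ, E μ ≠ 0 → μ ≤ t) : Ld L (E t - E (-t)) 2 = Ld L h (2 * t) := by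
  have hbot := D.bot_of_top55 htop
  have hEE : ∀ μ, E μ * E μ = E μ := fun μ => by rw [D.spec.mul, if_pos rfl]
  have e1 : E t * E (-t) = 0 := by rw [D.spec.mul, if_neg (by linarith)]
  have e2 : E (-t) * E t = 0 := by rw [D.spec.mul, if_neg (by linarith)]
  have hSD := sd_three2 (hEE t) (hEE (-t)) e1 e2
  have hE : SD h E Λ := ⟨D.spec.mul, D.spec.sum, D.spec.eq⟩
  ext X
  refine and_congr_right fun _ => ?_
  have h1 := hE.top_iff2 htop hbot (X := X)
  have h2 := hSD.top_iff2 (t := 1) (X := X) (by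
    intro μ hμ
    by_contra hcon
    push Not at hcon
    exact hμ (E3_three _ _ μ (by linarith) (by linarith) (by linarith))) (by
    intro μ hμ
    by_contra hcon
    push Not at hcon
    exact hμ (E3_three _ _ μ (by linarith) (by linarith) (by linarith)))
  rw [E3_one, E3_neg, mul_one] at h2
  rw [h1, ← h2]

theorem rank_neg55 (μ : ℝ) : (E (-μ)).rank = (E μ).rank := by
  have hEE : ∀ μ, E μ * E μ = E μ := fun μ => by rw [D.spec.mul, if_pos rfl]
  have h1 : ((E (-μ)).rank : ℂ) = (E μ).rank := by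
    rw [rank_eq_trace (hEE (-μ)), rank_eq_trace (hEE μ), ← D.tauE, D.inv.tr]
  exact_mod_cast h1

theorem rank_mid55 (ht : 0 < t) : (1 - E t - E (-t)).rank + 2 * (E t).rank = Fintype.card n := by
  have hEE : ∀ μ, E μ * E μ = E μ := fun μ => by rw [D.spec.mul, if_pos rfl]
  have e1 : E t * E (-t) = 0 := by rw [D.spec.mul, if_neg (by linarith)]
  have e2 : E (-t) * E t = 0 := by rw [D.spec.mul, if_neg (by linarith)]
  have e3 : (1 - E t - E (-t)) * (1 - E t - E (-t)) = 1 - E t - E (-t) := by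
    simp only [mul_sub, sub_mul, mul_one, one_mul, hEE, e1, e2]
    abel
  have h1 : ((1 - E t - E (-t)).rank : ℂ) = (Fintype.card n : ℂ) - (E t).rank - (E t).rank := by
    rw [rank_eq_trace e3, trace_sub, trace_sub, trace_one, ← rank_eq_trace (hEE t), ← rank_eq_trace (hEE (-t)),
      D.rank_neg55]
  have h2 : ((1 - E t - E (-t)).rank : ℂ) + 2 * (E t).rank = Fintype.card n := by
    rw [h1]
    ring
  exact_mod_cast h2

/-- **The bound in the contact case**, any number of eigenvalues. -/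
theorem contact_lev55 (ht : 0 < t) (htop : ∀ μ, E μ ≠ 0 → μ ≤ t) (h0 : 1 - E t - E (-t) ≠ 0)
    (hone : Module.finrank ℂ (Ld L h (2 * t)) = 1) : 5 * (E t).rank ≤ 2 * Fintype.card n := by
  have hne : Ld L h (2 * t) ≠ ⊥ := by
    intro h1
    rw [h1, finrank_bot] at hone
    exact zero_ne_one hone
  have hy := D.ext98 ht htop hne
  have D' := D.dat3_55 ht hy
  have T' := E3_three (E t) (E (-t))
  have hLd := D.ld3_55 ht htop
  obtain ⟨⟨x, hx⟩, hx0, hx1⟩ := finrank_eq_one_iff'.1 hone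
  have hx0' : x ≠ 0 := fun h => hx0 (Subtype.ext h)
  rw [← hLd] at hx
  have hE1 : E3 (E t) (E (-t)) 1 ≠ 0 := by
    intro h1
    apply hx0'
    rw [← D'.Ld227 T' hx, h1, zero_mul, zero_mul]
  have h1 := D'.contact_half55 T' hE1 (by rw [E3_zero]; exact h0) hx hx0' (by
    intro y hy'
    rw [hLd] at hy'
    obtain ⟨c, hc⟩ := hx1 ⟨y, hy'⟩
    exact ⟨c, (congrArg Subtype.val hc).symm⟩)
  rw [E3_one, E3_zero] at h1
  have h2 := D.rank_mid55 ht
  omega

/-- **The bound without elements of extreme degree**, three eigenvalues. -/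
theorem small_lev55 (ht : 0 < t) (hlev : ∀ ν, ν ≠ t → ν ≠ 0 → ν ≠ -t → E ν = 0) (hN : Ld L h (2 * t) = ⊥)
    (hs : (∀ K : Submodule ℂ (Matrix n n ℂ), IsI L K → h ∈ K ∨ h ∈ pp L K) → Smp L) :
    (E t).rank ≤ (E 0).rank := by
  have htop : ∀ μ, E μ ≠ 0 → μ ≤ t := by
    intro μ hμ
    by_contra hcon
    push Not at hcon
    exact hμ (hlev μ (by linarith) (by linarith) (by linarith))
  obtain ⟨l1, l2, l3⟩ := D.lev_cube ht hlev
  have hr : E t - E (-t) = ((t : ℂ))⁻¹ • h := by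
    have h0 : (t : ℂ) ≠ 0 := by exact_mod_cast ht.ne'
    rw [l1, smul_smul, inv_mul_cancel₀ h0, one_smul]
  have hy : E t - E (-t) ∈ L := by
    rw [hr]
    exact L.smul_mem _ D.mem
  have hsum : E t + E (-t) + E 0 = 1 := by
    have h2 : (1 : Matrix n n ℂ) = ∑ μ ∈ Λ ∪ {t, -t, 0}, E μ := by
      rw [← D.spec.sum]
      apply Finset.sum_subset Finset.subset_union_left
      intro μ _ hμ
      exact D.spec.supp μ hμ
    have h3 : ∑ μ ∈ Λ ∪ {t, -t, 0}, E μ = ∑ μ ∈ ({t, -t, 0} : Finset ℝ), E μ := by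
      symm
      apply Finset.sum_subset Finset.subset_union_right
      intro μ _ hμ
      simp only [Finset.mem_insert, Finset.mem_singleton, not_or] at hμ
      exact hlev μ hμ.1 hμ.2.2 hμ.2.1
    rw [h2, h3, Finset.sum_insert, Finset.sum_insert, Finset.sum_singleton, add_assoc]
    · rw [Finset.mem_singleton]
      linarith
    · rw [Finset.mem_insert, Finset.mem_singleton, not_or]
      exact ⟨by linarith, ht.ne'⟩
  by_cases hor : ∀ K : Submodule ℂ (Matrix n n ℂ), IsI L K → h ∈ K ∨ h ∈ pp L K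
  · have D' := D.dat3_55 ht hy
    have h1 := D'.small55 (E3_three _ _) (hs hor) (by rw [D.ld3_55 ht htop]; exact hN)
    rw [E3_one, E3_zero] at h1
    have h2 : 1 - E t - E (-t) = E 0 := by
      rw [← hsum]
      abel
    rwa [h2] at h1
  · push Not at hor
    obtain ⟨K, hK, hK1, hK2⟩ := hor
    have h1 := D.two_ideals ht hlev hK (by
      by_contra hcon
      push Not at hcon
      apply hK2
      refine ⟨D.mem, fun y hy => ?_⟩
      have h2 := hcon y hy
      rw [star_tr, h2, star_zero]) hK1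
    have h2 : (E t).rank ≤ (Pp E Λ).rank := D.rank_pos_le ht
    omega

/-- **The trichotomy with bounds.** -/
theorem tri55 [Nonempty n] {F Fi : Matrix n n ℂ}
    (f1 : F * Fi = 1) (f2 : Fi * F = 1) {c : ℂ} (hc : c * c = 1) (hF : Fᵀ = c • F)
    (hsk : ∀ X ∈ L, Xᵀ * F + F * X = 0) (ht : 0 < t) (htop : ∀ μ, E μ ≠ 0 → μ ≤ t)
    (h0 : 1 - E t - E (-t) ≠ 0)
    (hs : (∀ K : Submodule ℂ (Matrix n n ℂ), IsI L K → h ∈ K ∨ h ∈ pp L K) → Smp L) :
    (Ld L h (2 * t) = ⊥ ∧ ((∀ ν, ν ≠ t → ν ≠ 0 → ν ≠ -t → E ν = 0) → (E t).rank ≤ (E 0).rank)) ∨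
    (Module.finrank ℂ (Ld L h (2 * t)) = 1 ∧ (c = 1 → Even (E t).rank) ∧
      (c = -1 → 3 ≤ (E t).rank) ∧ 5 * (E t).rank ≤ 2 * Fintype.card n) ∨
      ∀ X : Matrix n n ℂ, Xᵀ * F + F * X = 0 → X ∈ L := by
  rcases D.tri_L2 f1 f2 hc hF hsk ht htop h0 (fun hne => hs fun K hK => D.h_mem_or_ext98 ht htop hne hK) with
    h1 | ⟨h1, h2, h3⟩ | h1
  · exact Or.inl ⟨h1, fun hlev => D.small_lev55 ht hlev h1 hs⟩
  · exact Or.inr (Or.inl ⟨h1, h2, h3, D.contact_lev55 ht htop h0 h1⟩)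
  · exact Or.inr (Or.inr h1)

end Dat

end MH
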